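import Mathlib
import Pool.Agent.W226.MP.Place

/-!
Good places for many of several real numbers.
-/

set_option autoImplicit false

open Finset Filter Topology

namespace Pool.Agent.Y934

open Pool.Agent.W226.MP (Good GoodPlace goodPlace)

/-- good places, or an exact rational value with small denominator (for arbitrary real `α`) -/
theorem scale' (b M : ℕ) (hb : 2 ≤ b) (hM : 1 ≤ M) (α : ℝ) (N : ℕ) :
    (∃ i : ℕ, (∃ q : ℕ, 1 ≤ q ∧ q < 2 * M ∧ ∃ a : ℤ,
      (b : ℝ) ^ i * |(q : ℝ) * (α * (b : ℝ) ^ N) - a| ≤ 1) ∧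
      ∃ r : ℚ, Good b M (α * (b : ℝ) ^ (N + i)) r) ∨
    (∃ q : ℕ, 1 ≤ q ∧ q < 2 * M ∧ ∃ a : ℤ, (q : ℝ) * (α * (b : ℝ) ^ N) = a) := by
  classical
  by_cases hirr : Irrational α
  · exact Or.inl (Pool.Agent.W226.MP.scale b M hb hM α hirr N)
  obtain ⟨s, rfl⟩ : ∃ s : ℚ, (s : ℝ) = α := by
    by_contra hcon
    exact hirr (fun ⟨s, hs⟩ => hcon ⟨s, hs⟩)
  have hMR : (0 : ℝ) < M := by exact_mod_cast hM
  have hM1 : (1 : ℝ) ≤ M := by exact_mod_cast hM
  have hbR : (2 : ℝ) ≤ b := by exact_mod_cast hb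
  obtain ⟨r, hr1, hr2⟩ := Real.exists_rat_abs_sub_le_and_den_le ((s : ℝ) * (b : ℝ) ^ N)
    (n := 2 * M - 1) (by omega)
  set ξ := (s : ℝ) * (b : ℝ) ^ N with hξ
  have hrr : (r : ℝ) * r.den = r.num := by
    have := Rat.mul_den_eq_num r
    exact_mod_cast this
  rcases eq_or_ne ξ (r : ℝ) with heq | hne
  · right
    refine ⟨r.den, r.den_pos, by omega, r.num, ?_⟩
    rw [heq, mul_comm]
    exact hrr
  left
  set Φ := |ξ - r| with hΦ
  have hΦ0 : 0 < Φ := by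
    rw [hΦ, abs_pos, sub_ne_zero]
    exact hne
  have hq : (0 : ℝ) < r.den := by exact_mod_cast r.den_pos
  have hqM : (r.den : ℝ) < 2 * M := by
    have : r.den < 2 * M := by omega
    exact_mod_cast this
  have hqΦ : (r.den : ℝ) * Φ ≤ 1 / (2 * M) := by
    have e : ((2 * M - 1 : ℕ) : ℝ) + 1 = 2 * M := by
      have : 2 * M - 1 + 1 = 2 * M := by omega
      exact_mod_cast this
    rw [e] at hr1
    rw [le_div_iff₀ (by positivity)] at hr1 ⊢
    linarith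
  have hden : ∀ i : ℕ, ((b : ℚ) ^ (i + 1) * r).den ≤ ((b : ℚ) ^ i * r).den := by
    intro i
    have h1 : (b : ℚ) ^ (i + 1) * r = (b : ℚ) * ((b : ℚ) ^ i * r) := by ring
    rw [h1]
    have h2 := Rat.mul_den_dvd (b : ℚ) ((b : ℚ) ^ i * r)
    rw [Rat.den_natCast, one_mul] at h2
    exact Nat.le_of_dvd (Rat.den_pos _) h2
  have hden0 : ∀ i : ℕ, ((b : ℚ) ^ i * r).den ≤ r.den := by
    intro i
    induction i with
    | zero => simp
    | succ i ih => exact (hden i).trans ih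
  have hex : ∃ i : ℕ, 1 / (2 * b * M) < (((b : ℚ) ^ i * r).den : ℝ) * ((b : ℝ) ^ i * Φ) := by
    obtain ⟨i, hi⟩ := pow_unbounded_of_one_lt (1 / (2 * b * M) / Φ) (by linarith : (1 : ℝ) < b)
    refine ⟨i, ?_⟩
    rw [div_lt_iff₀ hΦ0] at hi
    have h1 : (1 : ℝ) ≤ ((b : ℚ) ^ i * r).den := by exact_mod_cast Rat.den_pos _
    have h2 : 0 ≤ (b : ℝ) ^ i * Φ := by positivity
    nlinarith
  have e2 : ∀ i : ℕ, |(s : ℝ) * (b : ℝ) ^ (N + i) - (((b : ℚ) ^ i * r : ℚ) : ℝ)| =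
      (b : ℝ) ^ i * Φ := by
    intro i
    have : (s : ℝ) * (b : ℝ) ^ (N + i) - (((b : ℚ) ^ i * r : ℚ) : ℝ) = (b : ℝ) ^ i * (ξ - r) := by
      rw [hξ, pow_add]; push_cast; ring
    rw [this, abs_mul, abs_of_pos (by positivity : (0 : ℝ) < (b : ℝ) ^ i)]
  have e3 : |(r.den : ℝ) * ξ - r.num| = r.den * Φ := by
    have : (r.den : ℝ) * ξ - r.num = r.den * (ξ - r) := by rw [← hrr]; ring
    rw [this, abs_mul, abs_of_pos hq]
  have hspec := Nat.find_spec hex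
  set i := Nat.find hex with hi
  have h2M : (1 : ℝ) / (2 * M) ≤ 1 := by rw [div_le_one (by positivity)]; linarith
  rcases Nat.eq_zero_or_pos i with h0 | h0
  · refine ⟨i, ⟨r.den, r.den_pos, by omega, r.num, ?_⟩, (b : ℚ) ^ i * r, ⟨?_, ?_, ?_⟩⟩
    · rw [e3, h0, pow_zero, one_mul]; linarith
    · exact lt_of_le_of_lt (hden0 i) (by omega)
    · rw [e2, h0]; simpa using hqΦ
    · rw [e2]; exact hspec
  · have h1 := Nat.find_min hex (Nat.sub_lt h0 one_pos)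
    push Not at h1
    obtain ⟨k, hk⟩ := Nat.exists_eq_succ_of_ne_zero (by omega : i ≠ 0)
    have hk' : Nat.find hex - 1 = k := by rw [← hi, hk]; rfl
    rw [hk'] at h1
    have h3 : (b : ℝ) * (1 / (2 * b * M)) = 1 / (2 * M) := by field_simp
    refine ⟨i, ⟨r.den, r.den_pos, by omega, r.num, ?_⟩, (b : ℚ) ^ i * r, ⟨?_, ?_, ?_⟩⟩
    · have h4 : (1 : ℝ) ≤ ((b : ℚ) ^ k * r).den := by exact_mod_cast Rat.den_pos _
      have h5 : (b : ℝ) ^ k * Φ ≤ 1 / (2 * b * M) := by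
        have : 0 ≤ (b : ℝ) ^ k * Φ := by positivity
        nlinarith
      have h6 : (b : ℝ) ^ i * Φ ≤ 1 / (2 * M) := by
        rw [hk, Nat.succ_eq_add_one, pow_succ, ← h3]
        have := mul_le_mul_of_nonneg_left h5 (by linarith : (0 : ℝ) ≤ b)
        linarith
      rw [e3]
      calc (b : ℝ) ^ i * (r.den * Φ) = r.den * ((b : ℝ) ^ i * Φ) := by ring
        _ ≤ (2 * M) * (1 / (2 * M)) := mul_le_mul hqM.le h6 (by positivity) (by positivity)
        _ = 1 := by field_simp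
    · exact lt_of_le_of_lt (hden0 i) (by omega)
    · rw [e2, hk, Nat.succ_eq_add_one, ← h3]
      have h4 : (((b : ℚ) ^ (k + 1) * r).den : ℝ) ≤ ((b : ℚ) ^ k * r).den := by
        exact_mod_cast hden k
      have h5 : 0 ≤ (b : ℝ) ^ (k + 1) * Φ := by positivity
      calc (((b : ℚ) ^ (k + 1) * r).den : ℝ) * ((b : ℝ) ^ (k + 1) * Φ)
          ≤ ((b : ℚ) ^ k * r).den * ((b : ℝ) ^ (k + 1) * Φ) := mul_le_mul_of_nonneg_right h4 h5
        _ = b * (((b : ℚ) ^ k * r).den * ((b : ℝ) ^ k * Φ)) := by rw [pow_succ]; ring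
        _ ≤ _ := mul_le_mul_of_nonneg_left h1 (by linarith)
    · rw [e2]; exact hspec

/-- if there is no good place `N + i` with `i < I`, there is a very good approximation -/
lemma no_place (b L : ℕ) (hb : 2 ≤ b) (α : ℝ) (N I : ℕ) :
    (∃ i < I, GoodPlace b α L (N + i)) ∨
    (∃ q : ℕ, 1 ≤ q ∧ q < 2 * b ^ L ∧ ∃ a : ℤ,
      (b : ℝ) ^ I * |((q * b ^ N : ℕ) : ℝ) * α - a| ≤ 1) := by
  have hbR : (2 : ℝ) ≤ b := by exact_mod_cast hb
  rcases scale' b (b ^ L) hb (Nat.one_le_pow _ _ (by omega)) α N with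
    ⟨i, ⟨q, hq1, hq2, a, ha⟩, r, hr⟩ | ⟨q, hq1, hq2, a, ha⟩
  · rcases lt_or_ge i I with hi | hi
    · exact Or.inl ⟨i, hi, goodPlace b L hb α (N + i) r hr⟩
    · refine Or.inr ⟨q, hq1, hq2, a, ?_⟩
      have e : ((q * b ^ N : ℕ) : ℝ) * α - a = (q : ℝ) * (α * (b : ℝ) ^ N) - a := by
        push_cast; ring
      rw [e]
      exact (mul_le_mul_of_nonneg_right (pow_le_pow_right₀ (by linarith) hi)
        (abs_nonneg _)).trans ha
  · refine Or.inr ⟨q, hq1, hq2, a, ?_⟩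
    have e : ((q * b ^ N : ℕ) : ℝ) * α - a = 0 := by
      rw [← ha]
      push_cast
      ring
    rw [e, abs_zero, mul_zero]
    exact zero_le_one

/-- **Good places for many numbers.** If for every `q` at least `B` of the numbers `x_j` are not well
approximable with denominator `q`, then for at least `B` of them there is a good place soon after
`N`. -/
theorem fplace (d : ℕ) (τ c0 : ℝ) (hτ : 0 < τ) (hc0 : 0 < c0) :
    ∃ C : ℝ, 0 ≤ C ∧ ∀ (J : Type) [Fintype J], Fintype.card J ≤ d → ∀ (x : J → ℝ) (B : ℕ),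
      (∀ q : ℕ, 1 ≤ q → ∃ G : Finset J, B ≤ G.card ∧ ∀ j ∈ G, ∀ p : ℤ,
        c0 ≤ (q : ℝ) ^ τ * |q * x j - p|) →
      ∀ b : ℕ, 2 ≤ b → ∀ L N : ℕ, ∃ G : Finset J, B ≤ G.card ∧ ∀ j ∈ G, ∃ n : ℕ, N ≤ n ∧
        (n : ℝ) ≤ (1 + τ) * N + (τ * d + d) * L + C ∧ GoodPlace b (x j) L n := by
  classical
  have hl2 : 0 < Real.log 2 := Real.log_pos (by norm_num)
  refine ⟨(τ * d * Real.log 2 + d * Real.log 2 + |Real.log c0|) / Real.log 2 + 1, by positivity,
    fun J _ hJ x B h b hb L N => ?_⟩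
  have hb2 : (2 : ℝ) ≤ b := by exact_mod_cast hb
  have hb0 : (0 : ℝ) < b := by linarith
  have hlb : Real.log 2 ≤ Real.log b := Real.log_le_log (by norm_num) hb2
  have hlb0 : 0 < Real.log b := lt_of_lt_of_le hl2 hlb
  set K : ℝ := (τ * d * Real.log 2 + d * Real.log 2 + |Real.log c0|) / Real.log 2 with hK
  have hK0 : 0 ≤ K := by positivity
  set I : ℕ := ⌊τ * N + (τ * d + d) * L + K⌋₊ + 1 with hI
  have hI1 : (I : ℝ) ≤ τ * N + (τ * d + d) * L + K + 1 := by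
    rw [hI]
    push_cast
    have := Nat.floor_le (show 0 ≤ τ * N + (τ * d + d) * L + K by positivity)
    linarith
  have hI2 : τ * N + (τ * d + d) * L + K < I := by
    rw [hI]
    push_cast
    exact Nat.lt_floor_add_one _
  have hno := fun j => no_place b L hb (x j) N I
  -- denominators
  have hex : ∀ j, ∃ q : ℕ, 1 ≤ q ∧ q < 2 * b ^ L ∧ ((¬ ∃ i < I, GoodPlace b (x j) L (N + i)) →
      ∃ a : ℤ, (b : ℝ) ^ I * |((q * b ^ N : ℕ) : ℝ) * x j - a| ≤ 1) := by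
    intro j
    rcases hno j with h1 | ⟨q, h1, h2, h3⟩
    · refine ⟨1, le_rfl, ?_, fun h2 => absurd h1 h2⟩
      have : 1 ≤ b ^ L := Nat.one_le_pow _ _ (by omega)
      omega
    · exact ⟨q, h1, h2, fun _ => h3⟩
  choose q hq1 hq2 hq3 using hex
  set Q : ℕ := ∏ j, q j with hQ
  have hQ1 : 1 ≤ Q := by
    rw [hQ]
    exact Nat.succ_le_of_lt (Finset.prod_pos fun j _ => hq1 j)
  have hQN : 1 ≤ Q * b ^ N := Nat.mul_pos hQ1 (by positivity)
  obtain ⟨G, hG1, hG2⟩ := h (Q * b ^ N) hQN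
  refine ⟨G, hG1, fun j hj => ?_⟩
  by_cases hgood : ∃ i < I, GoodPlace b (x j) L (N + i)
  · obtain ⟨i, hi, hg⟩ := hgood
    refine ⟨N + i, by omega, ?_, hg⟩
    have : (i : ℝ) + 1 ≤ I := by exact_mod_cast hi
    push_cast
    linarith
  exfalso
  obtain ⟨a, ha⟩ := hq3 j hgood
  have hj2 := hG2 j hj (a * ∏ l ∈ univ.erase j, (q l : ℤ))
  have hbL : (1 : ℝ) ≤ 2 * (b : ℝ) ^ L := by
    have : (1 : ℝ) ≤ (b : ℝ) ^ L := one_le_pow₀ (by linarith)
    linarith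
  have hQj : Q = q j * ∏ l ∈ univ.erase j, q l := (Finset.mul_prod_erase _ _ (mem_univ j)).symm
  have hR : (∏ l ∈ univ.erase j, (q l : ℝ)) ≤ (2 * (b : ℝ) ^ L) ^ d := by
    calc (∏ l ∈ univ.erase j, (q l : ℝ)) ≤ ∏ _l ∈ (univ : Finset J).erase j,
          (2 * (b : ℝ) ^ L) := by
          refine Finset.prod_le_prod (fun l _ => Nat.cast_nonneg _) fun l _ => ?_
          exact_mod_cast (hq2 l).le
      _ ≤ (2 * (b : ℝ) ^ L) ^ d := by
          rw [Finset.prod_const]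
          apply pow_le_pow_right₀ hbL
          rw [Finset.card_erase_of_mem (mem_univ j), Finset.card_univ]
          omega
  have hR0 : 0 ≤ ∏ l ∈ univ.erase j, (q l : ℝ) := Finset.prod_nonneg fun l _ => Nat.cast_nonneg _
  have hQle : (Q : ℝ) ≤ (2 * (b : ℝ) ^ L) ^ d := by
    rw [hQ]
    push_cast
    calc (∏ l, (q l : ℝ)) ≤ ∏ _l : J, (2 * (b : ℝ) ^ L) := by
          refine Finset.prod_le_prod (fun l _ => Nat.cast_nonneg _) fun l _ => ?_
          exact_mod_cast (hq2 l).le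
      _ = (2 * (b : ℝ) ^ L) ^ (Fintype.card J) := by
          rw [Finset.prod_const, Finset.card_univ]
      _ ≤ _ := pow_le_pow_right₀ hbL hJ
  set W : ℝ := ((Q * b ^ N : ℕ) : ℝ) with hW
  have hW1 : (1 : ℝ) ≤ W := by rw [hW]; exact_mod_cast hQN
  have e1 : W * x j - ((a * ∏ l ∈ univ.erase j, (q l : ℤ) : ℤ) : ℝ) =
      (∏ l ∈ univ.erase j, (q l : ℝ)) * (((q j * b ^ N : ℕ) : ℝ) * x j - a) := by
    rw [hW, hQj]
    push_cast
    ring
  have h1 : (b : ℝ) ^ I * |W * x j - ((a * ∏ l ∈ univ.erase j, (q l : ℤ) : ℤ) : ℝ)| ≤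
      (2 * (b : ℝ) ^ L) ^ d := by
    rw [e1, abs_mul, abs_of_nonneg hR0]
    calc (b : ℝ) ^ I * ((∏ l ∈ univ.erase j, (q l : ℝ)) *
          |((q j * b ^ N : ℕ) : ℝ) * x j - a|)
        = (∏ l ∈ univ.erase j, (q l : ℝ)) * ((b : ℝ) ^ I *
          |((q j * b ^ N : ℕ) : ℝ) * x j - a|) := by ring
      _ ≤ (2 * (b : ℝ) ^ L) ^ d * 1 := mul_le_mul hR ha (by positivity) (by positivity)
      _ = _ := mul_one _
  have hWle : W ≤ (2 * (b : ℝ) ^ L) ^ d * (b : ℝ) ^ N := by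
    rw [hW]
    push_cast
    exact mul_le_mul_of_nonneg_right hQle (by positivity)
  have h2 : (b : ℝ) ^ I * c0 ≤
      ((2 * (b : ℝ) ^ L) ^ d * (b : ℝ) ^ N) ^ τ * (2 * (b : ℝ) ^ L) ^ d := by
    calc (b : ℝ) ^ I * c0 ≤ (b : ℝ) ^ I *
          (W ^ τ * |W * x j - ((a * ∏ l ∈ univ.erase j, (q l : ℤ) : ℤ) : ℝ)|) :=
          mul_le_mul_of_nonneg_left hj2 (by positivity)
      _ = W ^ τ * ((b : ℝ) ^ I *
          |W * x j - ((a * ∏ l ∈ univ.erase j, (q l : ℤ) : ℤ) : ℝ)|) := by ring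
      _ ≤ ((2 * (b : ℝ) ^ L) ^ d * (b : ℝ) ^ N) ^ τ * (2 * (b : ℝ) ^ L) ^ d := by
          apply mul_le_mul _ h1 (by positivity) (by positivity)
          exact Real.rpow_le_rpow (by linarith) hWle hτ.le
  have h3 : (I : ℝ) * Real.log b + Real.log c0 ≤
      τ * (d * (Real.log 2 + L * Real.log b) + N * Real.log b) +
        d * (Real.log 2 + L * Real.log b) := by
    have h4 := Real.log_le_log (by positivity) h2
    rw [Real.log_mul (by positivity) hc0.ne', Real.log_pow,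
      Real.log_mul (by positivity) (by positivity), Real.log_rpow (by positivity),
      Real.log_mul (by positivity) (by positivity), Real.log_pow, Real.log_pow,
      Real.log_mul (by norm_num) (by positivity), Real.log_pow] at h4
    exact h4
  have h5 : τ * d * Real.log 2 + d * Real.log 2 + |Real.log c0| ≤ K * Real.log b := by
    rw [hK, div_mul_eq_mul_div, le_div_iff₀ hl2]
    exact mul_le_mul_of_nonneg_left hlb (by positivity)
  have h6 := neg_abs_le (Real.log c0)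
  have h7 : (I : ℝ) * Real.log b ≤ (τ * N + (τ * d + d) * L + K) * Real.log b := by
    nlinarith
  have h8 := le_of_mul_le_mul_right h7 hlb0
  linarith

end Pool.Agent.Y934
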