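import Mathlib
import Pool.Agent.Y934.FPlace
import Pool.Agent.Y934.Fam
import Pool.Agent.Y949.MP.Mult

/-!
Blocks in most multiples of many of several real numbers.
-/

set_option autoImplicit false

open Finset Filter Topology

namespace Pool.Agent.Y934

open Pool.Agent.W226.MP (occ OccursAt GoodPlace)
open Pool.Agent.Y949.MP (X X_nonneg one_window beta_le occ_split occ_mono)

open Classical in
lemma occ_sum (b k l : ℕ) (w : Fin k → Fin b) (y : ℝ) (S : Finset ℕ)
    (hdis : ∀ s ∈ S, ∀ s' ∈ S, s < s' → s + l ≤ s') (n : ℕ) (hn : ∀ s ∈ S, s + l ≤ n) :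
    ∑ s ∈ S, occ b k w y s l ≤ occ b k w y 0 n := by
  induction S using Finset.induction_on_max generalizing n with
  | empty => simp
  | insert a S ha ih =>
    rw [Finset.sum_insert (fun h => lt_irrefl _ (ha a h))]
    have h1 := ih (fun s hs s' hs' hlt => hdis s (Finset.mem_insert_of_mem hs) s'
      (Finset.mem_insert_of_mem hs') hlt) a (fun s hs =>
        hdis s (Finset.mem_insert_of_mem hs) a (Finset.mem_insert_self _ _) (ha s hs))
    have h2 := occ_split b k w y a l n (hn a (Finset.mem_insert_self _ _))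
    omega

open Classical in
/-- most elements have many occurrences in given windows -/
theorem most_set {ι : Type} (b k l : ℕ) (I : Finset ι) (y : ι → ℝ) (g β : ℝ) (hg : 0 ≤ g)
    (hβ : 0 ≤ β) (S : Finset ℕ)
    (hS : ∀ s ∈ S, ((I.filter (fun m => ∃ w : Fin k → Fin b,
        (occ b k w (y m) s l : ℝ) < g)).card : ℝ) ≤ β)
    (hdis : ∀ s ∈ S, ∀ s' ∈ S, s < s' → s + l ≤ s') (n : ℕ) (hn : ∀ s ∈ S, s + l ≤ n)
    (ε : ℝ) (hε : 0 < ε) :
    ((I.filter (fun m => ∃ w : Fin k → Fin b,
        (occ b k w (y m) 0 n : ℝ) < (1 - ε) * S.card * g)).card : ℝ) ≤ β / ε := by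
  set bad : ι → ℕ := fun m => (S.filter (fun s => ∃ w : Fin k → Fin b,
        (occ b k w (y m) s l : ℝ) < g)).card with hbad
  have hsum : ∑ m ∈ I, (bad m : ℝ) ≤ S.card * β := by
    have e1 : ∑ m ∈ I, bad m = ∑ s ∈ S, (I.filter (fun m => ∃ w : Fin k → Fin b,
        (occ b k w (y m) s l : ℝ) < g)).card := by
      simp only [hbad, Finset.card_filter]
      exact Finset.sum_comm
    have e2 : ∑ m ∈ I, (bad m : ℝ) = ((∑ m ∈ I, bad m : ℕ) : ℝ) := by push_cast; rfl
    rw [e2, e1]
    push_cast
    calc ∑ s ∈ S, ((I.filter (fun m => ∃ w : Fin k → Fin b,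
        (occ b k w (y m) s l : ℝ) < g)).card : ℝ) ≤ ∑ _s ∈ S, β := Finset.sum_le_sum hS
      _ = S.card * β := by rw [Finset.sum_const, nsmul_eq_mul]
  have hocc : ∀ m, ∀ w : Fin k → Fin b,
      ((S.card : ℝ) - bad m) * g ≤ occ b k w (y m) 0 n := by
    intro m w
    have h1 : (∑ s ∈ S, (occ b k w (y m) s l : ℝ)) ≤ occ b k w (y m) 0 n := by
      exact_mod_cast occ_sum b k l w (y m) S hdis n hn
    refine le_trans ?_ h1
    have h2 : ∀ s ∈ S, (if ∃ w : Fin k → Fin b, (occ b k w (y m) s l : ℝ) < g then (0 : ℝ) else g) ≤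
        occ b k w (y m) s l := by
      intro s _
      split_ifs with h
      · exact Nat.cast_nonneg _
      · push Not at h
        exact h w
    refine le_trans (le_of_eq ?_) (Finset.sum_le_sum h2)
    rw [Finset.sum_ite, Finset.sum_const_zero, zero_add, Finset.sum_const, nsmul_eq_mul]
    congr 1
    have h3 := Finset.card_filter_add_card_filter_not (s := S)
      (fun s => ∃ w : Fin k → Fin b, (occ b k w (y m) s l : ℝ) < g)
    rw [hbad]
    have h4 : ((S.card : ℕ) : ℝ) = ((S.filter (fun s => ∃ w : Fin k → Fin b,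
        (occ b k w (y m) s l : ℝ) < g)).card : ℝ) + ((S.filter (fun s => ¬ ∃ w : Fin k → Fin b,
        (occ b k w (y m) s l : ℝ) < g)).card : ℝ) := by exact_mod_cast h3.symm
    rw [h4]
    ring
  have key : ∀ m ∈ I.filter (fun m => ∃ w : Fin k → Fin b,
        (occ b k w (y m) 0 n : ℝ) < (1 - ε) * S.card * g), ε * S.card ≤ (bad m : ℝ) ∧
          0 < S.card := by
    intro m hm
    rw [Finset.mem_filter] at hm
    obtain ⟨hm, w, hw⟩ := hm
    have h1 := hocc m w
    have h3 : ((S.card : ℝ) - bad m) * g < (1 - ε) * S.card * g := lt_of_le_of_lt h1 hw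
    have h4 : (S.card : ℝ) - bad m < (1 - ε) * S.card := lt_of_mul_lt_mul_right h3 hg
    refine ⟨by linarith, ?_⟩
    rcases Nat.eq_zero_or_pos S.card with h5 | h5
    · exfalso
      rw [h5] at hw
      simp only [CharP.cast_eq_zero, mul_zero, zero_mul] at hw
      exact absurd hw (not_lt.2 (Nat.cast_nonneg _))
    · exact h5
  rcases Nat.eq_zero_or_pos S.card with hT | hT
  · have : I.filter (fun m => ∃ w : Fin k → Fin b,
        (occ b k w (y m) 0 n : ℝ) < (1 - ε) * S.card * g) = ∅ := by
      rw [Finset.eq_empty_iff_forall_notMem]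
      intro m hm
      have := (key m hm).2
      omega
    rw [this]
    simp only [Finset.card_empty, CharP.cast_eq_zero]
    positivity
  · have hTR : (0 : ℝ) < S.card := by exact_mod_cast hT
    have h1 : ((I.filter (fun m => ∃ w : Fin k → Fin b,
        (occ b k w (y m) 0 n : ℝ) < (1 - ε) * S.card * g)).card : ℝ) * (ε * S.card) ≤
          S.card * β := by
      refine le_trans ?_ hsum
      rw [← nsmul_eq_mul]
      refine (Finset.card_nsmul_le_sum _ (fun m => (bad m : ℝ)) _ fun m hm => (key m hm).1).trans ?_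
      exact Finset.sum_le_sum_of_subset_of_nonneg (Finset.filter_subset _ _)
        (fun i _ _ => Nat.cast_nonneg _)
    rw [le_div_iff₀ hε]
    have h2 : ((I.filter (fun m => ∃ w : Fin k → Fin b,
        (occ b k w (y m) 0 n : ℝ) < (1 - ε) * S.card * g)).card : ℝ) * ε * S.card ≤
          β * S.card := by linarith
    exact le_of_mul_le_mul_right h2 hTR

/-- the ends of the windows -/
noncomputable def E (A B0 : ℝ) (l : ℕ) : ℕ → ℕ
  | 0 => 0
  | t + 1 => ⌊A * E A B0 l t + B0⌋₊ + l

lemma E_le_X {A B0 : ℝ} (hA : 0 ≤ A) (hB : 0 ≤ B0) (l t : ℕ) : (E A B0 l t : ℝ) ≤ X A (B0 + l) t := by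
  induction t with
  | zero => simp [E, X]
  | succ t ih =>
    rw [E, X]
    push_cast
    have h1 := Nat.floor_le (show 0 ≤ A * E A B0 l t + B0 by positivity)
    have h2 : A * (E A B0 l t : ℝ) ≤ A * X A (B0 + l) t := mul_le_mul_of_nonneg_left ih hA
    linarith

lemma E_mono {A B0 : ℝ} (hA : 1 ≤ A) (hB : 0 ≤ B0) (l : ℕ) : Monotone (E A B0 l) := by
  refine monotone_nat_of_le_succ fun t => ?_
  rw [E]
  have h1 : (E A B0 l t : ℝ) ≤ A * E A B0 l t + B0 := by
    have : (0 : ℝ) ≤ E A B0 l t := Nat.cast_nonneg _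
    nlinarith
  have h2 := Nat.le_floor h1
  omega

open Classical in
/-- **Blocks in most multiples, for many of several numbers.** -/
theorem family (d : ℕ) (τ c0 : ℝ) (hτ : 0 < τ) (hc0 : 0 < c0) (b k : ℕ) (hb : 2 ≤ b) (hk : 1 ≤ k)
    (ε : ℝ) (hε : 0 < ε) (hε1 : ε < 1) :
    ∃ c C : ℝ, 0 < c ∧ 0 < C ∧ ∀ (J : Type) [Fintype J], Fintype.card J ≤ d →
      ∀ (x : J → ℝ) (B : ℕ),
      (∀ q : ℕ, 1 ≤ q → ∃ G : Finset J, B ≤ G.card ∧ ∀ j ∈ G, ∀ p : ℤ,
        c0 ≤ (q : ℝ) ^ τ * |q * x j - p|) →
      ∀ M n : ℕ, 2 ≤ M → ∃ T : ℕ, Real.log (n / (C * Real.log M)) / Real.log (1 + τ) ≤ T ∧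
        ∃ g : J → ℕ, (∀ j, g j ≤ T) ∧ B * T ≤ ∑ j, g j ∧ ∀ (j : J) (y : ℝ),
        (((range M).filter (fun m : ℕ => ∃ w : Fin k → Fin b, (occ b k w (y + m * x j) 0 n : ℝ) <
          (1 - ε) * (Real.log M / ((b : ℝ) ^ k * Real.log b)) * g j)).card : ℝ) ≤
          C * (M : ℝ) ^ (1 - c) := by
  obtain ⟨C1, hC10, hC1⟩ := fplace d τ c0 hτ hc0
  have hbR : (2 : ℝ) ≤ b := by exact_mod_cast hb
  have hb0 : (0 : ℝ) < b := by linarith
  have hlb : 0 < Real.log b := Real.log_pos (by linarith)
  have hl2 : 0 < Real.log 2 := Real.log_pos (by norm_num)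
  have hk1 : (1 : ℝ) ≤ k := by exact_mod_cast hk
  have hk0 : (0 : ℝ) < k := by linarith
  have hbk : (1 : ℝ) ≤ (b : ℝ) ^ k := one_le_pow₀ (by linarith)
  have hbk0 : (0 : ℝ) < (b : ℝ) ^ k := by linarith
  set e : ℝ := ε / (4 * (b : ℝ) ^ k) with he
  have he0 : 0 < e := by positivity
  have he1 : e ≤ 1 := by
    rw [he, div_le_one (by positivity)]
    linarith
  set c : ℝ := e ^ 2 / (4 * k * Real.log b) with hc
  have hc0' : 0 < c := by positivity
  set A : ℝ := 1 + τ with hA
  have hA1 : 1 < A := by rw [hA]; linarith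
  have hA0 : 0 < A := by linarith
  have hlA : 0 < Real.log A := Real.log_pos hA1
  set D : ℝ := τ * d + d with hD
  have hD0 : 0 ≤ D := by positivity
  set L0 : ℕ := ⌈((k : ℝ) + k * (b : ℝ) ^ k) / (ε / 4)⌉₊ + k with hL0
  set C2 : ℝ := (D + C1 + 2) / τ with hC2
  have hC20 : 0 < C2 := by positivity
  set C3 : ℝ := 1 / Real.log b + 1 / Real.log 2 with hC3
  have hC30 : 0 < C3 := by positivity
  set C4 : ℝ := 4 * k * (b : ℝ) ^ (k + 2) * Real.exp 1 / (ε / 4) with hC4
  have hC40 : 0 < C4 := by positivity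
  set C : ℝ := A * C2 * C3 + C4 + (b : ℝ) ^ ((L0 : ℝ) * c) with hC
  have hC0 : 0 < C := by positivity
  refine ⟨c, C, hc0', hC0, fun J _ hJ x B hx M n hM => ?_⟩
  have hMR : (2 : ℝ) ≤ M := by exact_mod_cast hM
  have hM0 : (0 : ℝ) < M := by linarith
  have hlM : 0 < Real.log M := Real.log_pos (by linarith)
  have hBJ : B ≤ Fintype.card J := by
    obtain ⟨G, hG, -⟩ := hx 1 le_rfl
    exact hG.trans (Finset.card_le_univ G)
  set L : ℕ := Nat.clog b M with hL
  have hML : M ≤ b ^ L := Nat.le_pow_clog (by omega) M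
  have hL1 : 1 ≤ L := Nat.clog_pos (by omega) (by omega)
  have hLM : b ^ (L - 1) < M := Nat.pow_pred_clog_lt_self (by omega) (by omega)
  have hLM' : b ^ L ≤ b * M := by
    have h1 : b ^ L = b * b ^ (L - 1) := by
      rw [← pow_succ']
      congr 1
      omega
    rw [h1]
    exact Nat.mul_le_mul_left _ hLM.le
  rcases lt_or_ge L L0 with hLL | hLL
  · -- small `M`
    refine ⟨⌈Real.log (n / (C * Real.log M)) / Real.log A⌉₊, Nat.le_ceil _, fun _ =>
      ⌈Real.log (n / (C * Real.log M)) / Real.log A⌉₊, fun _ => le_rfl, ?_, fun j y => ?_⟩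
    · rw [Finset.sum_const, Finset.card_univ, smul_eq_mul]
      exact Nat.mul_le_mul_right _ hBJ
    have h1 := Finset.card_filter_le (range M) (fun m : ℕ => ∃ w : Fin k → Fin b,
        (occ b k w (y + m * x j) 0 n : ℝ) <
        (1 - ε) * (Real.log M / ((b : ℝ) ^ k * Real.log b)) *
          ((⌈Real.log (n / (C * Real.log M)) / Real.log A⌉₊ : ℕ) : ℝ))
    rw [Finset.card_range] at h1
    refine (show _ ≤ (M : ℝ) by exact_mod_cast h1).trans ?_
    have h2 : (M : ℝ) = (M : ℝ) ^ c * (M : ℝ) ^ (1 - c) := by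
      rw [← Real.rpow_add hM0]
      simp
    have h3 : (M : ℝ) ^ c ≤ C := by
      have h4 : (M : ℝ) ≤ (b : ℝ) ^ ((L0 : ℕ) : ℝ) := by
        rw [Real.rpow_natCast]
        exact_mod_cast hML.trans (Nat.pow_le_pow_right (by omega) hLL.le)
      have h5 : (M : ℝ) ^ c ≤ ((b : ℝ) ^ ((L0 : ℕ) : ℝ)) ^ c :=
        Real.rpow_le_rpow hM0.le h4 hc0'.le
      rw [← Real.rpow_mul hb0.le] at h5
      have h6 : 0 < A * C2 * C3 + C4 := by positivity
      rw [hC]
      linarith
    calc (M : ℝ) = (M : ℝ) ^ c * (M : ℝ) ^ (1 - c) := h2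
      _ ≤ C * (M : ℝ) ^ (1 - c) := mul_le_mul_of_nonneg_right h3 (by positivity)
  rcases le_or_gt (Real.log ((n : ℝ) / (C * Real.log M))) 0 with hneg | hpos
  · -- no windows
    refine ⟨0, ?_, fun _ => 0, fun _ => le_rfl, by simp, fun j y => ?_⟩
    · simp only [CharP.cast_eq_zero]
      exact div_nonpos_of_nonpos_of_nonneg hneg hlA.le
    have hemp : (range M).filter (fun m : ℕ => ∃ w : Fin k → Fin b,
        (occ b k w (y + m * x j) 0 n : ℝ) <
        (1 - ε) * (Real.log M / ((b : ℝ) ^ k * Real.log b)) * ((0 : ℕ) : ℝ)) = ∅ := by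
      rw [Finset.eq_empty_iff_forall_notMem]
      intro m hm
      rw [Finset.mem_filter] at hm
      obtain ⟨-, w, hw⟩ := hm
      rw [Nat.cast_zero, mul_zero] at hw
      exact absurd hw (not_lt.2 (Nat.cast_nonneg _))
    rw [hemp]
    simp only [Finset.card_empty, CharP.cast_eq_zero]
    positivity
  · -- large `M`
    have hkL : k ≤ L := by omega
    have hLR1 : (1 : ℝ) ≤ L := by exact_mod_cast hL1
    have hL0R : (k : ℝ) + k * (b : ℝ) ^ k ≤ ε / 4 * L := by
      have h1 := Nat.le_ceil (((k : ℝ) + k * (b : ℝ) ^ k) / (ε / 4))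
      have h2 : ((⌈((k : ℝ) + k * (b : ℝ) ^ k) / (ε / 4)⌉₊ : ℕ) : ℝ) ≤ L := by
        have : ⌈((k : ℝ) + k * (b : ℝ) ^ k) / (ε / 4)⌉₊ ≤ L := by omega
        exact_mod_cast this
      have h3 := h1.trans h2
      rw [div_le_iff₀ (by positivity)] at h3
      linarith
    set gg : ℝ := (1 - ε / 2) * L / (b : ℝ) ^ k with hgg
    have hgg0 : 0 ≤ gg := by
      rw [hgg]
      apply div_nonneg _ hbk0.le
      apply mul_nonneg (by linarith) (by linarith)
    set β : ℝ := 4 * k * (b : ℝ) ^ (k + 2) * Real.exp 1 * (M : ℝ) ^ (1 - c) with hβ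
    have hβ0 : 0 ≤ β := by positivity
    set l : ℕ := L + 1 - k with hl
    have hl1 : 1 ≤ l := by omega
    set B0 : ℝ := D * L + C1 with hB0
    have hB00 : 0 ≤ B0 := by positivity
    have hn0 : (0 : ℝ) < n := by
      rcases Nat.eq_zero_or_pos n with h0 | h0
      · exfalso
        rw [h0] at hpos
        simp at hpos
      · exact_mod_cast h0
    -- places
    have hpl : ∀ t : ℕ, ∃ G : Finset J, B ≤ G.card ∧ ∀ j ∈ G, ∃ s : ℕ, E A B0 l t ≤ s ∧
        s + l ≤ E A B0 l (t + 1) ∧ ∀ y : ℝ, (((range M).filter (fun m : ℕ => ∃ w : Fin k → Fin b,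
        (occ b k w (y + m * x j) s l : ℝ) < gg)).card : ℝ) ≤ β := by
      intro t
      obtain ⟨G, hG1, hG2⟩ := hC1 J hJ x B hx b hb L (E A B0 l t)
      refine ⟨G, hG1, fun j hj => ?_⟩
      obtain ⟨s, h1, h2, h3⟩ := hG2 j hj
      refine ⟨s, h1, ?_, fun y => ?_⟩
      · rw [E]
        have h4 : s ≤ ⌊A * (E A B0 l t : ℝ) + B0⌋₊ := by
          apply Nat.le_floor
          rw [hA, hB0, hD]
          linarith
        omega
      · exact (one_window hk hkL h3 y ε hε hε1 hL0R M hML hb).trans
          (beta_le hb hk hkL e he0 he1 (by omega) hML hLM')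
    choose G hG1 pl hpl1 hpl2 hpl3 using hpl
    set Z : ℝ := (n : ℝ) / (C2 * L) with hZ
    have hLlog : (L : ℝ) ≤ C3 * Real.log M := by
      have h1 : ((L - 1 : ℕ) : ℝ) * Real.log b ≤ Real.log M := by
        rw [← Real.log_pow]
        apply Real.log_le_log (by positivity)
        exact_mod_cast hLM.le
      rw [Nat.cast_sub hL1, Nat.cast_one] at h1
      have h2 : (L : ℝ) - 1 ≤ Real.log M / Real.log b := by
        rw [le_div_iff₀ hlb]
        exact h1
      have h3 : 1 ≤ Real.log M / Real.log 2 := by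
        rw [le_div_iff₀ hl2, one_mul]
        exact Real.log_le_log (by norm_num) hMR
      have e1 : C3 * Real.log M = Real.log M / Real.log b + Real.log M / Real.log 2 := by
        rw [hC3]; ring
      rw [e1]
      linarith
    have hLge : Real.log M / Real.log b ≤ L := by
      rw [div_le_iff₀ hlb, ← Real.log_pow]
      apply Real.log_le_log hM0
      exact_mod_cast hML
    have hCL : A * (C2 * L) ≤ C * Real.log M := by
      have h1 : A * (C2 * L) ≤ A * (C2 * (C3 * Real.log M)) := by
        gcongr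
      have h2 : 0 ≤ (C4 + (b : ℝ) ^ ((L0 : ℝ) * c)) * Real.log M := by positivity
      have e1 : C * Real.log M = A * (C2 * (C3 * Real.log M)) +
          (C4 + (b : ℝ) ^ ((L0 : ℝ) * c)) * Real.log M := by
        rw [hC]; ring
      rw [e1]
      linarith
    have hlog : Real.log ((n : ℝ) / (C * Real.log M)) + Real.log A ≤ Real.log Z := by
      rw [← Real.log_mul (by positivity) hA0.ne']
      apply Real.log_le_log (by positivity)
      rw [hZ, div_mul_eq_mul_div, div_le_div_iff₀ (by positivity) (by positivity)]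
      calc (n : ℝ) * A * (C2 * L) = n * (A * (C2 * L)) := by ring
        _ ≤ n * (C * Real.log M) := mul_le_mul_of_nonneg_left hCL hn0.le
    set T : ℕ := ⌊Real.log Z / Real.log A⌋₊ with hT
    have hlZ : 0 ≤ Real.log Z / Real.log A := by
      apply div_nonneg _ hlA.le
      linarith
    have hT1 : (T : ℝ) ≤ Real.log Z / Real.log A := Nat.floor_le hlZ
    have hT2 : Real.log Z / Real.log A < T + 1 := Nat.lt_floor_add_one _
    have hZ0 : 0 < Z := by positivity
    have hAT : A ^ T ≤ Z := by
      rw [← Real.rpow_natCast, Real.rpow_def_of_pos hA0]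
      calc Real.exp (Real.log A * T) ≤ Real.exp (Real.log Z) := by
            apply Real.exp_le_exp.2
            rw [le_div_iff₀ hlA] at hT1
            linarith
        _ = Z := Real.exp_log hZ0
    have hX : X A (B0 + (l : ℝ)) T ≤ n := by
      set B' : ℝ := B0 + (l : ℝ) with hB'
      have hB'0 : 0 ≤ B' := by positivity
      have h1 := X_le' hA1 hB'0 T
      have hA1' : A - 1 = τ := by rw [hA]; ring
      rw [hA1'] at h1
      have h2 : B' / τ ≤ C2 * L := by
        have h3 : (l : ℝ) ≤ L := by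
          have : l ≤ L := by omega
          exact_mod_cast this
        have h4 : C1 ≤ C1 * L := le_mul_of_one_le_right hC10 hLR1
        rw [hB', hB0, hC2, div_mul_eq_mul_div]
        apply div_le_div_of_nonneg_right _ hτ.le
        nlinarith
      have h3 : B' / τ * A ^ T ≤ C2 * L * Z := by
        apply mul_le_mul h2 hAT (by positivity) (by positivity)
      have h4 : C2 * L * Z = n := by
        rw [hZ]
        field_simp
      have h5 : 0 ≤ B' / τ := by positivity
      linarith
    have hET : E A B0 l T ≤ n := by exact_mod_cast (E_le_X hA0.le hB00 l T).trans hX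
    have hEm := E_mono hA1.le hB00 l
    refine ⟨T, ?_, fun j => ((range T).filter (fun t => j ∈ G t)).card, fun j => ?_, ?_,
      fun j y => ?_⟩
    · have h2 : Real.log ((n : ℝ) / (C * Real.log M)) / Real.log A + 1 ≤
          Real.log Z / Real.log A := by
        have e1 : Real.log ((n : ℝ) / (C * Real.log M)) / Real.log A + 1 =
            (Real.log ((n : ℝ) / (C * Real.log M)) + Real.log A) / Real.log A := by
          field_simp
        rw [e1]
        exact div_le_div_of_nonneg_right hlog hlA.le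
      linarith
    · exact (Finset.card_filter_le _ _).trans (Finset.card_range T).le
    · have e1 : ∑ j, ((range T).filter (fun t => j ∈ G t)).card = ∑ t ∈ range T, (G t).card := by
        simp only [Finset.card_filter]
        rw [Finset.sum_comm]
        refine Finset.sum_congr rfl fun t _ => ?_
        rw [← Finset.card_filter, Finset.filter_mem_eq_inter, Finset.univ_inter]
      rw [e1]
      calc B * T = ∑ _t ∈ range T, B := by
            rw [Finset.sum_const, Finset.card_range, smul_eq_mul, mul_comm]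
        _ ≤ ∑ t ∈ range T, (G t).card := Finset.sum_le_sum fun t _ => hG1 t
    · -- the windows of `j`
      set P : ℕ → ℕ := fun t => if h : j ∈ G t then pl t j h else 0 with hP
      have hPt : ∀ t (h : j ∈ G t), P t = pl t j h := fun t h => by rw [hP]; simp [h]
      set Tj : Finset ℕ := (range T).filter (fun t => j ∈ G t) with hTj
      have hlt : ∀ t ∈ Tj, ∀ t' ∈ Tj, t < t' → P t + l ≤ P t' := by
        intro t ht t' ht' htt
        rw [hTj, Finset.mem_filter] at ht ht'
        rw [hPt t ht.2, hPt t' ht'.2]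
        exact (hpl2 t j ht.2).trans ((hEm htt).trans (hpl1 t' j ht'.2))
      have hinj : Set.InjOn P Tj := by
        intro t ht t' ht' heq
        by_contra hne
        rcases lt_or_gt_of_ne hne with h1 | h1
        · have := hlt t ht t' ht' h1
          omega
        · have := hlt t' ht' t ht h1
          omega
      have hcard : (Tj.image P).card = Tj.card := Finset.card_image_of_injOn hinj
      have hmost := most_set b k l (range M) (fun m : ℕ => y + m * x j) gg β hgg0 hβ0 (Tj.image P)
        (fun s hs => by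
          rw [Finset.mem_image] at hs
          obtain ⟨t, ht, rfl⟩ := hs
          have ht2 := (Finset.mem_filter.1 ht).2
          rw [hPt t ht2]
          exact hpl3 t j ht2 y)
        (fun s hs s' hs' hlt' => by
          rw [Finset.mem_image] at hs hs'
          obtain ⟨t, ht, rfl⟩ := hs
          obtain ⟨t', ht', rfl⟩ := hs'
          rcases lt_trichotomy t t' with h1 | h1 | h1
          · exact hlt t ht t' ht' h1
          · rw [h1] at hlt'
            exact absurd hlt' (lt_irrefl _)
          · have := hlt t' ht' t ht h1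
            omega) n
        (fun s hs => by
          rw [Finset.mem_image] at hs
          obtain ⟨t, ht, rfl⟩ := hs
          have ht1 := Finset.mem_range.1 (Finset.mem_filter.1 ht).1
          have ht2 := (Finset.mem_filter.1 ht).2
          rw [hPt t ht2]
          exact (hpl2 t j ht2).trans ((hEm (by omega : t + 1 ≤ T)).trans hET))
        (ε / 4) (by positivity)
      rw [hcard] at hmost
      have hfin : β / (ε / 4) ≤ C * (M : ℝ) ^ (1 - c) := by
        have h1 : β / (ε / 4) = C4 * (M : ℝ) ^ (1 - c) := by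
          rw [hβ, hC4]
          ring
        rw [h1]
        apply mul_le_mul_of_nonneg_right _ (by positivity)
        have h2 : 0 < A * C2 * C3 := by positivity
        have h3 : 0 < (b : ℝ) ^ ((L0 : ℝ) * c) := by positivity
        rw [hC]
        linarith
      refine le_trans (Nat.cast_le.2 (Finset.card_le_card ?_)) (hmost.trans hfin)
      intro m hm
      rw [Finset.mem_filter] at hm ⊢
      obtain ⟨hm, w, hw⟩ := hm
      refine ⟨hm, w, lt_of_lt_of_le hw ?_⟩
      have h2 : (1 - ε) ≤ (1 - ε / 4) * (1 - ε / 2) := by nlinarith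
      have h3 : Real.log M / ((b : ℝ) ^ k * Real.log b) ≤ L / (b : ℝ) ^ k := by
        have e1 : Real.log M / ((b : ℝ) ^ k * Real.log b) =
            Real.log M / Real.log b / (b : ℝ) ^ k := by
          field_simp
        rw [e1]
        exact div_le_div_of_nonneg_right hLge hbk0.le
      have hT0 : (0 : ℝ) ≤ Tj.card := Nat.cast_nonneg _
      have h4 : 0 ≤ Real.log M / ((b : ℝ) ^ k * Real.log b) := by positivity
      calc (1 - ε) * (Real.log M / ((b : ℝ) ^ k * Real.log b)) * (Tj.card : ℝ)
          ≤ ((1 - ε / 4) * (1 - ε / 2)) * (L / (b : ℝ) ^ k) * (Tj.card : ℝ) := by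
            apply mul_le_mul_of_nonneg_right _ hT0
            apply mul_le_mul h2 h3 h4
            apply mul_nonneg <;> linarith
        _ = (1 - ε / 4) * Tj.card * gg := by
            rw [hgg]
            ring

end Pool.Agent.Y934
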