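import Mathlib
import Pool.Agent.Y934.Family

/-!
Blocks in most multiples of all but a few of several numbers, no two of which have good simultaneous
approximations.
-/

set_option autoImplicit false

open Finset Filter Topology

namespace Pool.Agent.Y934

open Pool.Agent.W226.MP (occ)

/-- the number of places `i < n` such that the `k` digits of `z` in base `b` after the `i`-th one are
`w 0, …, w (k - 1)` (the `j`-th digit of `z` behind the point is `⌊z b ^ j⌋ mod b`) -/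
noncomputable def count (b k : ℕ) (w : Fin k → Fin b) (z : ℝ) (n : ℕ) : ℕ :=
  {i : ℕ | i < n ∧ ∀ s : Fin k, ⌊z * (b : ℝ) ^ (i + s + 1)⌋ % (b : ℤ) = ((w s : ℕ) : ℤ)}.ncard

lemma count_eq (b k : ℕ) (w : Fin k → Fin b) (y : ℝ) (n : ℕ) :
    count b k w y n = occ b k w y 0 n := by
  classical
  unfold count Pool.Agent.W226.MP.occ Pool.Agent.W226.MP.OccursAt Pool.Agent.W226.MP.digit
  rw [← Set.ncard_coe_finset]
  congr 1
  ext i
  simp only [Set.mem_ofPred_eq, Finset.coe_filter, Finset.mem_range, zero_add]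

lemma unif_const {I : Type} [Finite I] (P : I → ℝ → Prop)
    (hmono : ∀ i c c', 0 < c' → c' ≤ c → P i c → P i c') (h : ∀ i, ∃ c, 0 < c ∧ P i c) :
    ∃ c : ℝ, 0 < c ∧ ∀ i, P i c := by
  choose c hc hP using h
  rcases isEmpty_or_nonempty I with hI | hI
  · exact ⟨1, one_pos, fun i => (hI.false i).elim⟩
  · obtain ⟨i0, hi0⟩ := Finite.exists_min c
    exact ⟨c i0, hc i0, fun i => hmono i _ _ (hc i0) (hi0 i) (hP i)⟩

open Classical in
lemma pair_family {J : Type} [Fintype J] (x : J → ℝ) (τ c0 : ℝ)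
    (h : ∀ i j, i ≠ j → ∀ q : ℕ, 1 ≤ q → ∀ p p' : ℤ,
      c0 ≤ (q : ℝ) ^ τ * |q * x i - p| ∨ c0 ≤ (q : ℝ) ^ τ * |q * x j - p'|) (q : ℕ) (hq : 1 ≤ q) :
    ∃ G : Finset J, Fintype.card J - 1 ≤ G.card ∧ ∀ j ∈ G, ∀ p : ℤ,
      c0 ≤ (q : ℝ) ^ τ * |q * x j - p| := by
  set G : Finset J := univ.filter (fun j => ∀ p : ℤ, c0 ≤ (q : ℝ) ^ τ * |q * x j - p|) with hG
  refine ⟨G, ?_, fun j hj => (Finset.mem_filter.1 hj).2⟩
  have h1 : Gᶜ.card ≤ 1 := by
    rw [Finset.card_le_one]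
    intro i hi j hj
    by_contra hne
    rw [Finset.mem_compl, hG, Finset.mem_filter] at hi hj
    push Not at hi hj
    obtain ⟨p, hp⟩ := hi (mem_univ _)
    obtain ⟨p', hp'⟩ := hj (mem_univ _)
    rcases h i j hne q hq p p' with h1 | h1
    · linarith
    · linarith
  rw [Finset.card_compl] at h1
  omega

open Classical in
/-- **All but a few.** -/
theorem except (d : ℕ) (τ c0 : ℝ) (hτ : 0 < τ) (hc0 : 0 < c0) (b k : ℕ) (hb : 2 ≤ b) (hk : 1 ≤ k)
    (ε Λ : ℝ) (hε : 0 < ε) (hε1 : ε < 1) (hΛ : 0 < Λ)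
    (hΛτ : (1 - ε) * Real.log (1 + τ) ≤ (1 - ε / 2) * Λ) :
    ∃ c C : ℝ, 0 < c ∧ 0 < C ∧ ∀ (J : Type) [Fintype J], Fintype.card J ≤ d →
      ∀ (x : J → ℝ), (∀ i j, i ≠ j → ∀ q : ℕ, 1 ≤ q → ∀ p p' : ℤ,
        c0 ≤ (q : ℝ) ^ τ * |q * x i - p| ∨ c0 ≤ (q : ℝ) ^ τ * |q * x j - p'|) →
      ∀ K M n : ℕ, 1 ≤ K → 2 ≤ M →
        (univ.filter (fun j => ¬ ∀ y : ℝ, (({m : ℕ | m < M ∧ ¬ ∀ w : Fin k → Fin b,
          (1 - ε) * (1 - 1 / K) * ((b : ℝ) ^ k)⁻¹ * Real.logb b M *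
            (Real.log (n / (C * Real.log M)) / Λ) ≤ (count b k w (y + m * x j) n : ℝ)}.ncard : ℕ)
            : ℝ) ≤ C * (M : ℝ) ^ (1 - c))).card < K := by
  obtain ⟨c, C, hc, hC, hfam⟩ := family d τ c0 hτ hc0 b k hb hk (ε / 2) (by linarith) (by linarith)
  refine ⟨c, C, hc, hC, fun J _ hJ x hx K M n hK hM => ?_⟩
  have hb1 : (1 : ℝ) < b := by exact_mod_cast (by omega : 1 < b)
  have hlb : 0 < Real.log b := Real.log_pos hb1
  have hM2 : (2 : ℝ) ≤ M := by exact_mod_cast hM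
  have hlM : 0 < Real.log M := Real.log_pos (by linarith)
  have hbk : 0 < (b : ℝ) ^ k := by positivity
  have hK1 : (1 : ℝ) ≤ K := by exact_mod_cast hK
  have hK0 : (0 : ℝ) < K := by linarith
  have hKK : 0 ≤ 1 - 1 / (K : ℝ) := by
    rw [sub_nonneg, div_le_one hK0]
    exact hK1
  have hlτ : 0 < Real.log (1 + τ) := Real.log_pos (by linarith)
  obtain ⟨T, hT, g, hg1, hg2, hg3⟩ := hfam J hJ x (Fintype.card J - 1)
    (pair_family x τ c0 hx) M n hM
  set lam : ℝ := Real.log (n / (C * Real.log M)) with hlam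
  -- exceptional elements
  have hexc : ∀ j, (¬ ∀ y : ℝ, (({m : ℕ | m < M ∧ ¬ ∀ w : Fin k → Fin b,
          (1 - ε) * (1 - 1 / K) * ((b : ℝ) ^ k)⁻¹ * Real.logb b M *
            (lam / Λ) ≤ (count b k w (y + m * x j) n : ℝ)}.ncard : ℕ)
            : ℝ) ≤ C * (M : ℝ) ^ (1 - c)) → (T : ℝ) < K * ((T : ℝ) - g j) := by
    intro j hj
    by_contra hcon
    push Not at hcon
    apply hj
    intro y
    refine le_trans (Nat.cast_le.2 ?_) (hg3 j y)
    rw [← Set.ncard_coe_finset]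
    refine Set.ncard_le_ncard ?_ (Finset.finite_toSet _)
    rintro m ⟨hm, h2⟩
    push Not at h2
    obtain ⟨w, hw⟩ := h2
    rw [count_eq] at hw
    rw [Finset.mem_coe, Finset.mem_filter, Finset.mem_range]
    refine ⟨hm, w, lt_of_lt_of_le hw ?_⟩
    have hg0 : (0 : ℝ) ≤ g j := Nat.cast_nonneg _
    rcases le_or_gt lam 0 with hneg | hpos
    · have h3 : (1 - ε) * (1 - 1 / K) * ((b : ℝ) ^ k)⁻¹ * Real.logb b M * (lam / Λ) ≤ 0 := by
        refine mul_nonpos_of_nonneg_of_nonpos ?_ ?_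
        · exact mul_nonneg (mul_nonneg (mul_nonneg (by linarith) hKK) (by positivity))
            (div_nonneg hlM.le hlb.le)
        · exact div_nonpos_of_nonpos_of_nonneg hneg hΛ.le
      refine h3.trans ?_
      have : 0 ≤ 1 - ε / 2 := by linarith
      positivity
    · have h4 : (1 - ε) * (lam / Λ) ≤ (1 - ε / 2) * T := by
        have h5 : (1 - ε) / Λ ≤ (1 - ε / 2) / Real.log (1 + τ) := by
          rw [div_le_div_iff₀ hΛ hlτ]
          exact hΛτ
        calc (1 - ε) * (lam / Λ) = (1 - ε) / Λ * lam := by ring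
          _ ≤ (1 - ε / 2) / Real.log (1 + τ) * lam := mul_le_mul_of_nonneg_right h5 hpos.le
          _ = (1 - ε / 2) * (lam / Real.log (1 + τ)) := by ring
          _ ≤ _ := mul_le_mul_of_nonneg_left hT (by linarith)
      have h6 : (1 - 1 / (K : ℝ)) * T ≤ g j := by
        have e1 : (1 - 1 / (K : ℝ)) * T = T - T / K := by ring
        rw [e1, sub_le_iff_le_add, ← sub_le_iff_le_add', le_div_iff₀ hK0]
        linarith
      calc (1 - ε) * (1 - 1 / K) * ((b : ℝ) ^ k)⁻¹ * Real.logb b M * (lam / Λ)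
          = (1 - 1 / K) * (Real.log M / ((b : ℝ) ^ k * Real.log b)) * ((1 - ε) * (lam / Λ)) := by
            rw [Real.logb]
            field_simp
        _ ≤ (1 - 1 / K) * (Real.log M / ((b : ℝ) ^ k * Real.log b)) * ((1 - ε / 2) * T) := by
            apply mul_le_mul_of_nonneg_left h4
            apply mul_nonneg hKK
            positivity
        _ = (1 - ε / 2) * (Real.log M / ((b : ℝ) ^ k * Real.log b)) * ((1 - 1 / K) * T) := by ring
        _ ≤ (1 - ε / 2) * (Real.log M / ((b : ℝ) ^ k * Real.log b)) * (g j : ℝ) := by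
            apply mul_le_mul_of_nonneg_left h6
            apply mul_nonneg (by linarith)
            positivity
  -- counting
  set F : Finset J := univ.filter (fun j => ¬ ∀ y : ℝ, (({m : ℕ | m < M ∧ ¬ ∀ w : Fin k → Fin b,
          (1 - ε) * (1 - 1 / K) * ((b : ℝ) ^ k)⁻¹ * Real.logb b M *
            (lam / Λ) ≤ (count b k w (y + m * x j) n : ℝ)}.ncard : ℕ)
            : ℝ) ≤ C * (M : ℝ) ^ (1 - c)) with hF
  by_contra hcon
  push Not at hcon
  have hFne : F.Nonempty := by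
    rw [← Finset.card_pos]
    omega
  have h1 : (F.card : ℝ) * T < ∑ j ∈ F, (K : ℝ) * ((T : ℝ) - g j) := by
    rw [← nsmul_eq_mul, ← Finset.sum_const]
    refine Finset.sum_lt_sum_of_nonempty hFne fun j hj => ?_
    rw [hF, Finset.mem_filter] at hj
    exact hexc j hj.2
  have h2 : ∑ j ∈ F, (K : ℝ) * ((T : ℝ) - g j) ≤ ∑ j, (K : ℝ) * ((T : ℝ) - g j) := by
    refine Finset.sum_le_sum_of_subset_of_nonneg (Finset.subset_univ _) fun j _ _ => ?_
    have : (g j : ℝ) ≤ T := by exact_mod_cast hg1 j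
    exact mul_nonneg hK0.le (by linarith)
  have h3 : ∑ j, (K : ℝ) * ((T : ℝ) - g j) ≤ K * T := by
    rw [← Finset.mul_sum]
    refine mul_le_mul_of_nonneg_left ?_ hK0.le
    rw [Finset.sum_sub_distrib, Finset.sum_const, Finset.card_univ, nsmul_eq_mul]
    have h4 : ((Fintype.card J - 1 : ℕ) : ℝ) * T ≤ ∑ j, (g j : ℝ) := by exact_mod_cast hg2
    have h5 : (Fintype.card J : ℝ) ≤ ((Fintype.card J - 1 : ℕ) : ℝ) + 1 := by
      have : Fintype.card J ≤ Fintype.card J - 1 + 1 := by omega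
      exact_mod_cast this
    have h6 : (0 : ℝ) ≤ T := Nat.cast_nonneg _
    nlinarith
  have h4 : (K : ℝ) * T ≤ F.card * T := by
    apply mul_le_mul_of_nonneg_right _ (Nat.cast_nonneg _)
    exact_mod_cast hcon
  linarith

end Pool.Agent.Y934
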