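import Mathlib
import Pool.Agent.W226.MP.EPlace
import Pool.Agent.W47.LC.Ln2

/-!
Irrationality measures of `e`, `√2`, `log 2` for all denominators.
-/

set_option autoImplicit false

namespace Pool.Agent.Y934

/-- an irrationality measure for all denominators -/
def Meas (κ x : ℝ) : Prop :=
  ∃ c : ℝ, 0 < c ∧ ∀ q : ℕ, 1 ≤ q → ∀ p : ℤ, c ≤ (q : ℝ) ^ κ * |q * x - p|

lemma Meas.irrational {κ x : ℝ} (h : Meas κ x) : Irrational x := by
  obtain ⟨c, hc, h⟩ := h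
  intro ⟨r, hr⟩
  have h1 := h r.den r.den_pos r.num
  have h2 : (r.den : ℝ) * x - r.num = 0 := by
    rw [← hr]
    have := Rat.mul_den_eq_num r
    have h3 : (r : ℝ) * r.den = r.num := by exact_mod_cast this
    linarith
  rw [h2, abs_zero, mul_zero] at h1
  linarith

lemma meas_e {κ : ℝ} (hκ : 1 < κ) : Meas κ (Real.exp 1) := by
  set η : ℝ := κ - 1 with hη
  have hη0 : 0 < η := by rw [hη]; linarith
  refine ⟨1 / 1000 / (1 + 1 / η), by positivity, fun q hq p => ?_⟩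
  have hqR : (1 : ℝ) ≤ q := by exact_mod_cast hq
  have hq0 : (0 : ℝ) < q := by linarith
  have h1 := Pool.Agent.W47.LC.eBound q hq p
  rw [pow_one] at h1
  rw [div_le_iff₀ (by positivity)]
  have h2 : Real.log q ≤ (q : ℝ) ^ η / η := Real.log_le_rpow_div hq0.le hη0
  have h3 : (1 : ℝ) ≤ (q : ℝ) ^ η := Real.one_le_rpow hqR hη0.le
  have h4 : 1 + Real.log q ≤ (q : ℝ) ^ η * (1 + 1 / η) := by
    have : (q : ℝ) ^ η / η = (q : ℝ) ^ η * (1 / η) := by ring
    linarith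
  have e1 : (q : ℝ) ^ κ = q * (q : ℝ) ^ η := by
    rw [show κ = 1 + η by rw [hη]; ring, Real.rpow_add hq0, Real.rpow_one]
  calc (1 : ℝ) / 1000 ≤ (q : ℝ) * (1 + Real.log q) * |q * Real.exp 1 - p| := h1
    _ ≤ (q : ℝ) * ((q : ℝ) ^ η * (1 + 1 / η)) * |q * Real.exp 1 - p| := by gcongr
    _ = (q : ℝ) ^ κ * |q * Real.exp 1 - p| * (1 + 1 / η) := by rw [e1]; ring

lemma meas_sqrt_two : Meas 1 (√2) := by
  have h : (√2 : ℝ) ^ 2 = 2 := Real.sq_sqrt (by norm_num)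
  exact Pool.Agent.W226.MP.liouville2 (√2) irrational_sqrt_two 1 0 (-2) one_ne_zero (by
    push_cast
    linarith)

lemma meas_log_two : Meas 3.211 (Real.log 2) := Pool.Agent.W47.LC.ln2

lemma Meas.mono {κ κ' x : ℝ} (h : Meas κ x) (hk : κ ≤ κ') : Meas κ' x := by
  obtain ⟨c, hc, h⟩ := h
  refine ⟨c, hc, fun q hq p => (h q hq p).trans ?_⟩
  have hqR : (1 : ℝ) ≤ q := by exact_mod_cast hq
  exact mul_le_mul_of_nonneg_right (Real.rpow_le_rpow_of_exponent_le hqR hk) (abs_nonneg _)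

end Pool.Agent.Y934
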