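import Mathlib
import Pool.Agent.Y934.Meas
import Pool.Agent.Y934.Except

/-!
Simultaneous approximation of `t + r e` and `t + s e`.
-/

set_option autoImplicit false

open Finset Filter Topology

namespace Pool.Agent.Y934

lemma meas_int {κ x c : ℝ} (h : ∀ q : ℕ, 1 ≤ q → ∀ p : ℤ, c ≤ (q : ℝ) ^ κ * |q * x - p|) (z : ℤ)
    (hz : z ≠ 0) (P : ℤ) : c ≤ |(z : ℝ)| ^ κ * |z * x - P| := by
  have hn : 1 ≤ z.natAbs := Int.natAbs_pos.2 hz
  have e0 : ((z.natAbs : ℕ) : ℝ) = |(z : ℝ)| := by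
    rw [Nat.cast_natAbs, Int.cast_abs]
  rcases abs_cases (z : ℝ) with ⟨h1, -⟩ | ⟨h1, -⟩
  · have h2 := h z.natAbs hn P
    rw [e0] at h2
    nth_rw 2 [h1] at h2
    exact h2
  · have h2 := h z.natAbs hn (-P)
    rw [e0] at h2
    nth_rw 2 [h1] at h2
    have e2 : |-(z : ℝ) * x - ((-P : ℤ) : ℝ)| = |z * x - P| := by
      rw [← abs_neg]
      congr 1
      push_cast
      ring
    rw [e2] at h2
    exact h2

lemma pair_e {κ : ℝ} (hκ : 1 < κ) (r s : ℚ) (hrs : r ≠ s) :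
    ∃ c : ℝ, 0 < c ∧ ∀ (t : ℝ) (q : ℕ), 1 ≤ q → ∀ p p' : ℤ,
      c ≤ (q : ℝ) ^ κ * |q * (t + r * Real.exp 1) - p| ∨
      c ≤ (q : ℝ) ^ κ * |q * (t + s * Real.exp 1) - p'| := by
  obtain ⟨c1, hc1, h1⟩ := meas_e hκ
  set δ : ℚ := r - s with hδ
  have hδ0 : δ ≠ 0 := sub_ne_zero.2 hrs
  have hu : δ.num ≠ 0 := Rat.num_ne_zero.2 hδ0
  have huR : (0 : ℝ) < |(δ.num : ℝ)| := abs_pos.2 (by exact_mod_cast hu)
  have hv : (0 : ℝ) < δ.den := by exact_mod_cast δ.den_pos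
  have hδR : (r : ℝ) - s = δ.num / δ.den := by
    have : (δ : ℝ) = δ.num / δ.den := by exact_mod_cast (Rat.num_div_den δ).symm
    rw [← this, hδ]
    push_cast
    ring
  set U : ℝ := |(δ.num : ℝ)| ^ κ with hUdef
  have hU : 0 < U := Real.rpow_pos_of_pos huR _
  refine ⟨c1 / (2 * δ.den * U), by positivity, fun t q hq p p' => ?_⟩
  by_contra hcon
  push Not at hcon
  obtain ⟨hA, hB⟩ := hcon
  have hqR : (0 : ℝ) < q := by exact_mod_cast hq
  have hqκ : 0 < (q : ℝ) ^ κ := Real.rpow_pos_of_pos hqR _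
  have h2 := meas_int h1 (q * δ.num) (mul_ne_zero (by exact_mod_cast (by omega : q ≠ 0)) hu)
    (δ.den * (p - p'))
  have e3 : |(((q : ℤ) * δ.num : ℤ) : ℝ)| ^ κ = (q : ℝ) ^ κ * U := by
    push_cast
    rw [abs_mul, abs_of_pos hqR, Real.mul_rpow hqR.le huR.le]
  have e1 : (((q : ℤ) * δ.num : ℤ) : ℝ) * Real.exp 1 - (((δ.den : ℤ) * (p - p') : ℤ) : ℝ) =
      δ.den * ((q * (t + r * Real.exp 1) - p) - (q * (t + s * Real.exp 1) - p')) := by
    have h3 : (δ.den : ℝ) * (r - s) = δ.num := by rw [hδR]; field_simp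
    push_cast
    calc (q : ℝ) * δ.num * Real.exp 1 - δ.den * (p - p')
        = q * ((δ.den : ℝ) * (r - s)) * Real.exp 1 - δ.den * (p - p') := by rw [h3]
      _ = _ := by ring
  rw [e1, e3, abs_mul, abs_of_pos hv] at h2
  have h4 : |(q * (t + r * Real.exp 1) - p) - (q * (t + s * Real.exp 1) - p')| ≤
      |q * (t + r * Real.exp 1) - p| + |q * (t + s * Real.exp 1) - p'| := abs_sub _ _
  have h5 : c1 ≤ U * δ.den *
      ((q : ℝ) ^ κ * |q * (t + r * Real.exp 1) - p| +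
        (q : ℝ) ^ κ * |q * (t + s * Real.exp 1) - p'|) := by
    calc c1 ≤ (q : ℝ) ^ κ * U * (δ.den *
          |(q * (t + r * Real.exp 1) - p) - (q * (t + s * Real.exp 1) - p')|) := h2
      _ ≤ (q : ℝ) ^ κ * U * (δ.den *
          (|q * (t + r * Real.exp 1) - p| + |q * (t + s * Real.exp 1) - p'|)) := by gcongr
      _ = _ := by ring
  have h6 : U * δ.den *
      ((q : ℝ) ^ κ * |q * (t + r * Real.exp 1) - p| +
        (q : ℝ) ^ κ * |q * (t + s * Real.exp 1) - p'|) <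
      U * δ.den * (c1 / (2 * δ.den * U) + c1 / (2 * δ.den * U)) := by
    apply mul_lt_mul_of_pos_left (add_lt_add hA hB) (by positivity)
  have e4 : U * δ.den * (c1 / (2 * δ.den * U) + c1 / (2 * δ.den * U)) = c1 := by
    field_simp
    ring
  linarith

/-- rational numbers of bounded numerator and denominator -/
noncomputable def rats (H : ℕ) : Finset ℚ :=
  ((Finset.Icc (-(H : ℤ)) H) ×ˢ (Finset.range (H + 1))).image (fun p => (p.1 : ℚ) / p.2)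

lemma mem_rats {H : ℕ} {r : ℚ} (h1 : |r.num| ≤ H) (h2 : r.den ≤ H) : r ∈ rats H := by
  unfold rats
  rw [Finset.mem_image]
  refine ⟨(r.num, r.den), ?_, Rat.num_div_den r⟩
  rw [Finset.mem_product, Finset.mem_Icc, Finset.mem_range]
  rw [abs_le] at h1
  exact ⟨h1, by show r.den < H + 1; omega⟩

/-- all but a few of the numbers `t + r e` -/
theorem except_e (b k H : ℕ) (hb : 2 ≤ b) (hk : 1 ≤ k) (ε : ℝ) (hε : 0 < ε) (hε1 : ε < 1) :
    ∃ c C : ℝ, 0 < c ∧ 0 < C ∧ ∀ (t : ℝ) (K M n : ℕ), 1 ≤ K → 2 ≤ M →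
      {r : ℚ | |r.num| ≤ H ∧ r.den ≤ H ∧ ¬ ∀ y : ℝ, (({m : ℕ | m < M ∧ ¬ ∀ w : Fin k → Fin b,
          (1 - ε) * (1 - 1 / K) * ((b : ℝ) ^ k)⁻¹ * Real.logb b M *
            Real.logb 2 (n / (C * Real.log M)) ≤
              (count b k w (y + m * (t + r * Real.exp 1)) n : ℝ)}.ncard : ℕ) : ℝ) ≤
            C * (M : ℝ) ^ (1 - c)}.ncard < K := by
  classical
  have hl2 : 0 < Real.log 2 := Real.log_pos (by norm_num)
  obtain ⟨κ, hκ, hκ2⟩ : ∃ κ : ℝ, 1 < κ ∧ (1 - ε) * Real.log (1 + κ) ≤ (1 - ε / 2) * Real.log 2 := by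
    refine ⟨2 ^ (1 + ε / 2) - 1, ?_, ?_⟩
    · have : (2 : ℝ) ^ (1 : ℝ) < 2 ^ (1 + ε / 2) :=
        Real.rpow_lt_rpow_of_exponent_lt (by norm_num) (by linarith)
      rw [Real.rpow_one] at this
      linarith
    · rw [add_sub_cancel, Real.log_rpow (by norm_num), ← mul_assoc]
      refine mul_le_mul_of_nonneg_right ?_ hl2.le
      nlinarith
  obtain ⟨c0, hc0, hpair⟩ := unif_const (I := {r // r ∈ rats H} × {r // r ∈ rats H})
    (fun i c => i.1 ≠ i.2 → ∀ (t : ℝ) (q : ℕ), 1 ≤ q → ∀ p p' : ℤ,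
      c ≤ (q : ℝ) ^ κ * |q * (t + (i.1.1 : ℚ) * Real.exp 1) - p| ∨
      c ≤ (q : ℝ) ^ κ * |q * (t + (i.2.1 : ℚ) * Real.exp 1) - p'|)
    (fun i c c' _ hcc h hne t q hq p p' => by
      rcases h hne t q hq p p' with h1 | h1
      · exact Or.inl (hcc.trans h1)
      · exact Or.inr (hcc.trans h1))
    (fun i => by
      by_cases hne : i.1 = i.2
      · exact ⟨1, one_pos, fun h => absurd hne h⟩
      · obtain ⟨c, hc, h⟩ := pair_e hκ i.1.1 i.2.1 (fun h => hne (Subtype.ext h))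
        exact ⟨c, hc, fun _ => h⟩)
  obtain ⟨c, C, hc, hC, h⟩ := except (Fintype.card {r // r ∈ rats H}) κ c0 (by linarith) hc0 b k hb hk
    ε (Real.log 2) hε hε1 hl2 hκ2
  refine ⟨c, C, hc, hC, fun t K M n hK hM => ?_⟩
  have h1 := h {r // r ∈ rats H} le_rfl (fun r => t + (r.1 : ℚ) * Real.exp 1)
    (fun i j hij q hq p p' => hpair (i, j) hij t q hq p p') K M n hK hM
  refine lt_of_le_of_lt ?_ h1
  rw [← Finset.card_map (Function.Embedding.subtype _), ← Set.ncard_coe_finset]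
  refine Set.ncard_le_ncard ?_ (Finset.finite_toSet _)
  rintro r ⟨hr1, hr2, hr3⟩
  rw [Finset.mem_coe, Finset.mem_map]
  refine ⟨⟨r, mem_rats hr1 hr2⟩, ?_, rfl⟩
  rw [Finset.mem_filter]
  exact ⟨mem_univ _, hr3⟩

end Pool.Agent.Y934
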