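import Mathlib

/-!
Counting in a box, one coordinate at a time.
-/

set_option autoImplicit false

open Finset

namespace Pool.Agent.Y934

lemma box_count {d M : ℕ} (j : Fin (d + 1)) (P : ℝ → Prop) [DecidablePred P] (α : Fin (d + 1) → ℝ) (y β : ℝ)
    (h : ∀ x : ℝ, (((range M).filter (fun m : ℕ => P (x + m * α j))).card : ℝ) ≤ β) :
    (((univ : Finset (Fin (d + 1) → Fin M)).filter
      (fun a => P (y + ∑ l, ((a l : ℕ) : ℝ) * α l))).card : ℝ) ≤ β * (M : ℝ) ^ d := by
  rw [Finset.card_filter]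
  push_cast
  rw [← (Fin.insertNthEquiv (fun _ => Fin M) j).sum_comp, Fintype.sum_prod_type_right]
  have h1 : ∀ a' : Fin d → Fin M, (∑ m : Fin M, (if P (y + ∑ l,
      (((Fin.insertNthEquiv (fun _ => Fin M) j (m, a')) l : ℕ) : ℝ) * α l) then (1 : ℝ) else 0)) ≤
        β := by
    intro a'
    refine le_trans (le_of_eq ?_) (h (y + ∑ l, ((a' l : ℕ) : ℝ) * α (j.succAbove l)))
    rw [Finset.card_filter]
    push_cast
    rw [← Fin.sum_univ_eq_sum_range (fun m : ℕ =>
      if P (y + ∑ l, ((a' l : ℕ) : ℝ) * α (j.succAbove l) + m * α j) then (1 : ℝ) else 0) M]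
    refine Finset.sum_congr rfl fun m _ => ?_
    have e1 : y + ∑ l, (((Fin.insertNthEquiv (fun _ => Fin M) j (m, a')) l : ℕ) : ℝ) * α l =
        y + ∑ l, ((a' l : ℕ) : ℝ) * α (j.succAbove l) + ((m : ℕ) : ℝ) * α j := by
      rw [Fin.sum_univ_succAbove _ j]
      simp only [Fin.insertNthEquiv_apply, Fin.insertNth_apply_same, Fin.insertNth_apply_succAbove]
      ring
    rw [e1]
  refine (Finset.sum_le_sum fun a' _ => h1 a').trans ?_
  rw [Finset.sum_const, nsmul_eq_mul, Finset.card_univ, Fintype.card_fun, Fintype.card_fin,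
    Fintype.card_fin]
  push_cast
  rw [mul_comm]

end Pool.Agent.Y934
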