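import Mathlib
import Pool.Agent.W226.MP.Place

/-!
Good places for one of several numbers.
-/

set_option autoImplicit false

open Finset Filter Topology

namespace Pool.Agent.Y934

open Pool.Agent.W226.MP (GoodPlace place)

/-- if the numbers `α_j` are not well approximable simultaneously, then after each place `N` there is
soon a good place of one of them -/
theorem jplace {d : ℕ} (hd : 1 ≤ d) (α : Fin d → ℝ) (hα : ∀ j, Irrational (α j)) (τ c0 : ℝ)
    (hτ : 0 < τ) (hc0 : 0 < c0)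
    (h : ∀ q : ℕ, 1 ≤ q → ∀ p : Fin d → ℤ, ∃ j, c0 ≤ (q : ℝ) ^ τ * |q * α j - p j|) :
    ∃ C : ℝ, 0 ≤ C ∧ ∀ b : ℕ, 2 ≤ b → ∀ L N : ℕ, ∃ n : ℕ, ∃ j, N ≤ n ∧
      (n : ℝ) ≤ (1 + τ) * N + (τ * d + d) * L + C ∧ GoodPlace b (α j) L n := by
  have hd0 : (1 : ℝ) ≤ d := by exact_mod_cast hd
  refine ⟨(τ * d * Real.log 2 + d * Real.log 2 + |Real.log c0|) / Real.log 2, by
    have : 0 ≤ Real.log 2 := Real.log_nonneg (by norm_num)
    positivity, fun b hb L N => ?_⟩
  have hpl := fun j => place b L hb (α j) (hα j) N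
  choose i hq hg using hpl
  choose q hq1 hq2 a ha using hq
  obtain ⟨j0, -, hj0⟩ := Finset.exists_min_image (univ : Finset (Fin d)) i
    ⟨⟨0, by omega⟩, mem_univ _⟩
  refine ⟨N + i j0, j0, by omega, ?_, hg j0⟩
  have hb2 : (2 : ℝ) ≤ b := by exact_mod_cast hb
  have hb0 : (0 : ℝ) < b := by linarith
  have hl2 : 0 < Real.log 2 := Real.log_pos (by norm_num)
  have hlb : Real.log 2 ≤ Real.log b := Real.log_le_log (by norm_num) hb2
  have hlb0 : 0 < Real.log b := lt_of_lt_of_le hl2 hlb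
  have hbL : (1 : ℝ) ≤ 2 * (b : ℝ) ^ L := by
    have : (1 : ℝ) ≤ (b : ℝ) ^ L := one_le_pow₀ (by linarith)
    linarith
  set Q : ℕ := ∏ j, q j with hQ
  have hQ1 : 1 ≤ Q := by
    rw [hQ]
    exact Nat.succ_le_of_lt (Finset.prod_pos fun j _ => hq1 j)
  have hQN : 1 ≤ Q * b ^ N := Nat.mul_pos hQ1 (by positivity)
  obtain ⟨j, hj⟩ := h (Q * b ^ N) hQN (fun j => a j * ∏ l ∈ univ.erase j, (q l : ℤ))
  have hQj : Q = q j * ∏ l ∈ univ.erase j, q l := (Finset.mul_prod_erase _ _ (mem_univ j)).symm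
  have hR : (∏ l ∈ univ.erase j, (q l : ℝ)) ≤ (2 * (b : ℝ) ^ L) ^ d := by
    calc (∏ l ∈ univ.erase j, (q l : ℝ)) ≤ ∏ _l ∈ (univ : Finset (Fin d)).erase j,
          (2 * (b : ℝ) ^ L) := by
          refine Finset.prod_le_prod (fun l _ => Nat.cast_nonneg _) fun l _ => ?_
          exact_mod_cast (hq2 l).le
      _ ≤ (2 * (b : ℝ) ^ L) ^ d := by
          rw [Finset.prod_const]
          apply pow_le_pow_right₀ hbL
          rw [Finset.card_erase_of_mem (mem_univ j), Finset.card_univ, Fintype.card_fin]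
          omega
  have hR0 : 0 ≤ ∏ l ∈ univ.erase j, (q l : ℝ) := Finset.prod_nonneg fun l _ => Nat.cast_nonneg _
  have hQle : (Q : ℝ) ≤ (2 * (b : ℝ) ^ L) ^ d := by
    rw [hQ]
    push_cast
    calc (∏ l, (q l : ℝ)) ≤ ∏ _l : Fin d, (2 * (b : ℝ) ^ L) := by
          refine Finset.prod_le_prod (fun l _ => Nat.cast_nonneg _) fun l _ => ?_
          exact_mod_cast (hq2 l).le
      _ = (2 * (b : ℝ) ^ L) ^ d := by
          rw [Finset.prod_const, Finset.card_univ, Fintype.card_fin]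
  set W : ℝ := ((Q * b ^ N : ℕ) : ℝ) with hW
  have hW1 : (1 : ℝ) ≤ W := by rw [hW]; exact_mod_cast hQN
  have e1 : W * α j - ((a j * ∏ l ∈ univ.erase j, (q l : ℤ) : ℤ) : ℝ) =
      (∏ l ∈ univ.erase j, (q l : ℝ)) * (((q j * b ^ N : ℕ) : ℝ) * α j - a j) := by
    rw [hW, hQj]
    push_cast
    ring
  have h1 : (b : ℝ) ^ i j0 * |W * α j - ((a j * ∏ l ∈ univ.erase j, (q l : ℤ) : ℤ) : ℝ)| ≤
      (2 * (b : ℝ) ^ L) ^ d := by
    rw [e1, abs_mul, abs_of_nonneg hR0]
    have h2 : (b : ℝ) ^ i j0 ≤ (b : ℝ) ^ i j :=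
      pow_le_pow_right₀ (by linarith) (hj0 j (mem_univ _))
    calc (b : ℝ) ^ i j0 * ((∏ l ∈ univ.erase j, (q l : ℝ)) *
          |((q j * b ^ N : ℕ) : ℝ) * α j - a j|)
        ≤ (b : ℝ) ^ i j * ((∏ l ∈ univ.erase j, (q l : ℝ)) *
          |((q j * b ^ N : ℕ) : ℝ) * α j - a j|) :=
          mul_le_mul_of_nonneg_right h2 (mul_nonneg hR0 (abs_nonneg _))
      _ = (∏ l ∈ univ.erase j, (q l : ℝ)) * ((b : ℝ) ^ i j *
          |((q j * b ^ N : ℕ) : ℝ) * α j - a j|) := by ring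
      _ ≤ (2 * (b : ℝ) ^ L) ^ d * 1 := mul_le_mul hR (ha j) (by positivity) (by positivity)
      _ = _ := mul_one _
  have hWle : W ≤ (2 * (b : ℝ) ^ L) ^ d * (b : ℝ) ^ N := by
    rw [hW]
    push_cast
    exact mul_le_mul_of_nonneg_right hQle (by positivity)
  have h2 : (b : ℝ) ^ i j0 * c0 ≤
      ((2 * (b : ℝ) ^ L) ^ d * (b : ℝ) ^ N) ^ τ * (2 * (b : ℝ) ^ L) ^ d := by
    calc (b : ℝ) ^ i j0 * c0 ≤ (b : ℝ) ^ i j0 *
          (W ^ τ * |W * α j - ((a j * ∏ l ∈ univ.erase j, (q l : ℤ) : ℤ) : ℝ)|) :=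
          mul_le_mul_of_nonneg_left hj (by positivity)
      _ = W ^ τ * ((b : ℝ) ^ i j0 *
          |W * α j - ((a j * ∏ l ∈ univ.erase j, (q l : ℤ) : ℤ) : ℝ)|) := by ring
      _ ≤ ((2 * (b : ℝ) ^ L) ^ d * (b : ℝ) ^ N) ^ τ * (2 * (b : ℝ) ^ L) ^ d := by
          apply mul_le_mul _ h1 (by positivity) (by positivity)
          exact Real.rpow_le_rpow (by linarith) hWle hτ.le
  have h3 : (i j0 : ℝ) * Real.log b + Real.log c0 ≤
      τ * (d * (Real.log 2 + L * Real.log b) + N * Real.log b) +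
        d * (Real.log 2 + L * Real.log b) := by
    have h4 := Real.log_le_log (by positivity) h2
    rw [Real.log_mul (by positivity) hc0.ne', Real.log_pow,
      Real.log_mul (by positivity) (by positivity), Real.log_rpow (by positivity),
      Real.log_mul (by positivity) (by positivity), Real.log_pow, Real.log_pow,
      Real.log_mul (by norm_num) (by positivity), Real.log_pow] at h4
    exact h4
  have h5 : τ * d * Real.log 2 + d * Real.log 2 + |Real.log c0|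
      ≤ (τ * d * Real.log 2 + d * Real.log 2 + |Real.log c0|) / Real.log 2 * Real.log b := by
    rw [div_mul_eq_mul_div, le_div_iff₀ hl2]
    exact mul_le_mul_of_nonneg_left hlb (by positivity)
  have h6 := neg_abs_le (Real.log c0)
  have h7 : (i j0 : ℝ) * Real.log b ≤ (τ * N + (τ * d + d) * L +
      (τ * d * Real.log 2 + d * Real.log 2 + |Real.log c0|) / Real.log 2) * Real.log b := by
    nlinarith
  have h8 := le_of_mul_le_mul_right h7 hlb0
  push_cast
  linarith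

end Pool.Agent.Y934
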