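import Mathlib
import Pool.Agent.Y934.Fam
import Pool.Agent.Y934.JPlace
import Pool.Agent.Y934.Box
import Pool.Agent.Y949.MP.Mult

/-!
Blocks in most integer combinations of several numbers.
-/

set_option autoImplicit false

open Finset Filter Topology

namespace Pool.Agent.Y934

open Pool.Agent.W226.MP (occ OccursAt GoodPlace)
open Pool.Agent.Y949.MP (X X_nonneg one_window beta_le)

open Classical in
/-- **Blocks in most integer combinations.** -/
theorem multi {d : ℕ} (α : Fin (d + 1) → ℝ) (τ c0 : ℝ) (hα : ∀ j, Irrational (α j)) (hτ : 0 < τ)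
    (hc0 : 0 < c0)
    (h : ∀ q : ℕ, 1 ≤ q → ∀ p : Fin (d + 1) → ℤ, ∃ j, c0 ≤ (q : ℝ) ^ τ * |q * α j - p j|)
    (b k : ℕ) (hb : 2 ≤ b) (hk : 1 ≤ k) (ε : ℝ) (hε : 0 < ε) (hε1 : ε < 1) :
    ∃ c C : ℝ, 0 < c ∧ 0 < C ∧ ∀ x : ℝ, ∀ M n : ℕ, 2 ≤ M →
      (((univ : Finset (Fin (d + 1) → Fin M)).filter (fun a => ∃ w : Fin k → Fin b,
        (occ b k w (x + ∑ l, ((a l : ℕ) : ℝ) * α l) 0 n : ℝ) <
        (1 - ε) * (Real.log M / ((b : ℝ) ^ k * Real.log b)) *
          (Real.log (n / (C * Real.log M)) / Real.log (1 + τ)))).card : ℝ) ≤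
        C * (M : ℝ) ^ (d + 1 - c) := by
  obtain ⟨C1, hC10, hC1⟩ := jplace (by omega) α hα τ c0 hτ hc0 h
  have hbR : (2 : ℝ) ≤ b := by exact_mod_cast hb
  have hb0 : (0 : ℝ) < b := by linarith
  have hlb : 0 < Real.log b := Real.log_pos (by linarith)
  have hl2 : 0 < Real.log 2 := Real.log_pos (by norm_num)
  have hk1 : (1 : ℝ) ≤ k := by exact_mod_cast hk
  have hk0 : (0 : ℝ) < k := by linarith
  have hbk : (1 : ℝ) ≤ (b : ℝ) ^ k := one_le_pow₀ (by linarith)
  have hbk0 : (0 : ℝ) < (b : ℝ) ^ k := by linarith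
  set e : ℝ := ε / (4 * (b : ℝ) ^ k) with he
  have he0 : 0 < e := by positivity
  have he1 : e ≤ 1 := by
    rw [he, div_le_one (by positivity)]
    linarith
  set c : ℝ := e ^ 2 / (4 * k * Real.log b) with hc
  have hc0' : 0 < c := by positivity
  set A : ℝ := 1 + τ with hA
  have hA1 : 1 < A := by rw [hA]; linarith
  have hA0 : 0 < A := by linarith
  have hlA : 0 < Real.log A := Real.log_pos hA1
  set D : ℝ := τ * ((d + 1 : ℕ) : ℝ) + ((d + 1 : ℕ) : ℝ) with hD
  have hD0 : 0 < D := by positivity
  set L0 : ℕ := ⌈((k : ℝ) + k * (b : ℝ) ^ k) / (ε / 4)⌉₊ + k with hL0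
  set C2 : ℝ := (D + C1 + 2) / τ with hC2
  have hC20 : 0 < C2 := by positivity
  set C3 : ℝ := 1 / Real.log b + 1 / Real.log 2 with hC3
  have hC30 : 0 < C3 := by positivity
  set C4 : ℝ := 4 * k * (b : ℝ) ^ (k + 2) * Real.exp 1 / (ε / 4) with hC4
  have hC40 : 0 < C4 := by positivity
  set C : ℝ := A * C2 * C3 + C4 + (b : ℝ) ^ ((L0 : ℝ) * c) with hC
  have hC0 : 0 < C := by positivity
  refine ⟨c, C, hc0', hC0, fun x M n hM => ?_⟩
  have hMR : (2 : ℝ) ≤ M := by exact_mod_cast hM
  have hM0 : (0 : ℝ) < M := by linarith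
  have hlM : 0 < Real.log M := Real.log_pos (by linarith)
  set L : ℕ := Nat.clog b M with hL
  have hML : M ≤ b ^ L := Nat.le_pow_clog (by omega) M
  have hL1 : 1 ≤ L := Nat.clog_pos (by omega) (by omega)
  have hLM : b ^ (L - 1) < M := Nat.pow_pred_clog_lt_self (by omega) (by omega)
  have hLM' : b ^ L ≤ b * M := by
    have h1 : b ^ L = b * b ^ (L - 1) := by
      rw [← pow_succ']
      congr 1
      omega
    rw [h1]
    exact Nat.mul_le_mul_left _ hLM.le
  have hMd : (M : ℝ) ^ ((d : ℝ) + 1 - c) = (M : ℝ) ^ (1 - c) * (M : ℝ) ^ d := by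
    rw [← Real.rpow_natCast (M : ℝ) d, ← Real.rpow_add hM0]
    congr 1
    ring
  rw [hMd]
  rcases lt_or_ge L L0 with hLL | hLL
  · -- small `M`
    have h1 : (((univ : Finset (Fin (d + 1) → Fin M)).filter (fun a => ∃ w : Fin k → Fin b,
        (occ b k w (x + ∑ l, ((a l : ℕ) : ℝ) * α l) 0 n : ℝ) <
        (1 - ε) * (Real.log M / ((b : ℝ) ^ k * Real.log b)) *
          (Real.log (n / (C * Real.log M)) / Real.log A))).card : ℝ) ≤ (M : ℝ) * (M : ℝ) ^ d := by
      have := Finset.card_filter_le (univ : Finset (Fin (d + 1) → Fin M))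
        (fun a => ∃ w : Fin k → Fin b,
        (occ b k w (x + ∑ l, ((a l : ℕ) : ℝ) * α l) 0 n : ℝ) <
        (1 - ε) * (Real.log M / ((b : ℝ) ^ k * Real.log b)) *
          (Real.log (n / (C * Real.log M)) / Real.log A))
      rw [Finset.card_univ, Fintype.card_fun, Fintype.card_fin, Fintype.card_fin, pow_succ'] at this
      exact_mod_cast this
    refine h1.trans ?_
    rw [← mul_assoc]
    refine mul_le_mul_of_nonneg_right ?_ (by positivity)
    have h2 : (M : ℝ) = (M : ℝ) ^ c * (M : ℝ) ^ (1 - c) := by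
      rw [← Real.rpow_add hM0]
      simp
    have h3 : (M : ℝ) ^ c ≤ C := by
      have h4 : (M : ℝ) ≤ (b : ℝ) ^ ((L0 : ℕ) : ℝ) := by
        rw [Real.rpow_natCast]
        exact_mod_cast hML.trans (Nat.pow_le_pow_right (by omega) hLL.le)
      have h5 : (M : ℝ) ^ c ≤ ((b : ℝ) ^ ((L0 : ℕ) : ℝ)) ^ c :=
        Real.rpow_le_rpow hM0.le h4 hc0'.le
      rw [← Real.rpow_mul hb0.le] at h5
      have h6 : 0 < A * C2 * C3 + C4 := by positivity
      rw [hC]
      linarith
    calc (M : ℝ) = (M : ℝ) ^ c * (M : ℝ) ^ (1 - c) := h2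
      _ ≤ C * (M : ℝ) ^ (1 - c) := mul_le_mul_of_nonneg_right h3 (by positivity)
  · -- large `M`
    have hkL : k ≤ L := by omega
    have hLR1 : (1 : ℝ) ≤ L := by exact_mod_cast hL1
    have hL0R : (k : ℝ) + k * (b : ℝ) ^ k ≤ ε / 4 * L := by
      have h1 := Nat.le_ceil (((k : ℝ) + k * (b : ℝ) ^ k) / (ε / 4))
      have h2 : ((⌈((k : ℝ) + k * (b : ℝ) ^ k) / (ε / 4)⌉₊ : ℕ) : ℝ) ≤ L := by
        have : ⌈((k : ℝ) + k * (b : ℝ) ^ k) / (ε / 4)⌉₊ ≤ L := by omega
        exact_mod_cast this
      have h3 := h1.trans h2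
      rw [div_le_iff₀ (by positivity)] at h3
      linarith
    set g : ℝ := (1 - ε / 2) * L / (b : ℝ) ^ k with hg
    have hg0 : 0 ≤ g := by
      rw [hg]
      apply div_nonneg _ hbk0.le
      apply mul_nonneg (by linarith) (by linarith)
    set β : ℝ := 4 * k * (b : ℝ) ^ (k + 2) * Real.exp 1 * (M : ℝ) ^ (1 - c) with hβ
    have hgood : ∀ S : ℕ, ∃ s : ℕ, S ≤ s ∧ (s : ℝ) ≤ A * S + (D * L + C1) ∧
      (((univ : Finset (Fin (d + 1) → Fin M)).filter (fun a => ∃ w : Fin k → Fin b,
        (occ b k w (x + ∑ l, ((a l : ℕ) : ℝ) * α l) s (L + 1 - k) : ℝ) < g)).card : ℝ) ≤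
          β * (M : ℝ) ^ d := by
      intro S
      obtain ⟨s, j, h1, h2, h3⟩ := hC1 b hb L S
      refine ⟨s, h1, ?_, ?_⟩
      · rw [hA, hD]
        linarith
      · exact box_count j (fun z => ∃ w : Fin k → Fin b,
          (occ b k w z s (L + 1 - k) : ℝ) < g) α x β (fun x' =>
          (one_window hk hkL h3 x' ε hε hε1 hL0R M hML hb).trans
          (beta_le hb hk hkL e he0 he1 (by omega) hML hLM'))
    set Z : ℝ := (n : ℝ) / (C2 * L) with hZ
    have hLlog : (L : ℝ) ≤ C3 * Real.log M := by
      have h1 : ((L - 1 : ℕ) : ℝ) * Real.log b ≤ Real.log M := by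
        rw [← Real.log_pow]
        apply Real.log_le_log (by positivity)
        exact_mod_cast hLM.le
      rw [Nat.cast_sub hL1, Nat.cast_one] at h1
      have h2 : (L : ℝ) - 1 ≤ Real.log M / Real.log b := by
        rw [le_div_iff₀ hlb]
        exact h1
      have h3 : 1 ≤ Real.log M / Real.log 2 := by
        rw [le_div_iff₀ hl2, one_mul]
        exact Real.log_le_log (by norm_num) hMR
      have e1 : C3 * Real.log M = Real.log M / Real.log b + Real.log M / Real.log 2 := by
        rw [hC3]; ring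
      rw [e1]
      linarith
    have hLge : Real.log M / Real.log b ≤ L := by
      rw [div_le_iff₀ hlb, ← Real.log_pow]
      apply Real.log_le_log hM0
      exact_mod_cast hML
    have hCL : A * (C2 * L) ≤ C * Real.log M := by
      have h1 : A * (C2 * L) ≤ A * (C2 * (C3 * Real.log M)) := by
        gcongr
      have h2 : 0 ≤ (C4 + (b : ℝ) ^ ((L0 : ℝ) * c)) * Real.log M := by positivity
      have e1 : C * Real.log M = A * (C2 * (C3 * Real.log M)) +
          (C4 + (b : ℝ) ^ ((L0 : ℝ) * c)) * Real.log M := by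
        rw [hC]; ring
      rw [e1]
      linarith
    rcases le_or_gt (Real.log ((n : ℝ) / (C * Real.log M))) 0 with hneg | hpos
    · -- the bound is not positive
      have hemp : (univ : Finset (Fin (d + 1) → Fin M)).filter (fun a => ∃ w : Fin k → Fin b,
          (occ b k w (x + ∑ l, ((a l : ℕ) : ℝ) * α l) 0 n : ℝ) <
          (1 - ε) * (Real.log M / ((b : ℝ) ^ k * Real.log b)) *
          (Real.log (n / (C * Real.log M)) / Real.log A)) = ∅ := by
        rw [Finset.eq_empty_iff_forall_notMem]
        intro m hm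
        rw [Finset.mem_filter] at hm
        obtain ⟨-, w, hw⟩ := hm
        have h1 : (1 - ε) * (Real.log M / ((b : ℝ) ^ k * Real.log b)) *
          (Real.log (n / (C * Real.log M)) / Real.log A) ≤ 0 := by
          apply mul_nonpos_of_nonneg_of_nonpos
          · apply mul_nonneg (by linarith)
            positivity
          · exact div_nonpos_of_nonpos_of_nonneg hneg hlA.le
        have h2 : (0 : ℝ) ≤ occ b k w (x + ∑ l, ((m l : ℕ) : ℝ) * α l) 0 n := Nat.cast_nonneg _
        linarith
      rw [hemp]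
      simp only [Finset.card_empty, CharP.cast_eq_zero]
      positivity
    · have hn0 : (0 : ℝ) < n := by
        rcases Nat.eq_zero_or_pos n with h0 | h0
        · exfalso
          rw [h0] at hpos
          simp at hpos
        · exact_mod_cast h0
      have hlog : Real.log ((n : ℝ) / (C * Real.log M)) + Real.log A ≤ Real.log Z := by
        rw [← Real.log_mul (by positivity) hA0.ne']
        apply Real.log_le_log (by positivity)
        rw [hZ, div_mul_eq_mul_div, div_le_div_iff₀ (by positivity) (by positivity)]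
        calc (n : ℝ) * A * (C2 * L) = n * (A * (C2 * L)) := by ring
          _ ≤ n * (C * Real.log M) := mul_le_mul_of_nonneg_left hCL hn0.le
      set T : ℕ := ⌊Real.log Z / Real.log A⌋₊ with hT
      have hlZ : 0 ≤ Real.log Z / Real.log A := by
        apply div_nonneg _ hlA.le
        linarith
      have hT1 : (T : ℝ) ≤ Real.log Z / Real.log A := Nat.floor_le hlZ
      have hT2 : Real.log Z / Real.log A < T + 1 := Nat.lt_floor_add_one _
      have hZ0 : 0 < Z := by positivity
      have hAT : A ^ T ≤ Z := by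
        rw [← Real.rpow_natCast, Real.rpow_def_of_pos hA0]
        calc Real.exp (Real.log A * T) ≤ Real.exp (Real.log Z) := by
              apply Real.exp_le_exp.2
              rw [le_div_iff₀ hlA] at hT1
              linarith
          _ = Z := Real.exp_log hZ0
      have hX : X A (D * L + C1 + ((L + 1 - k : ℕ) : ℝ)) T ≤ n := by
        set B : ℝ := D * L + C1 + ((L + 1 - k : ℕ) : ℝ) with hB
        have hB0 : 0 ≤ B := by positivity
        have h1 := X_le' hA1 hB0 T
        have hA1' : A - 1 = τ := by rw [hA]; ring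
        rw [hA1'] at h1
        have h2 : B / τ ≤ C2 * L := by
          have h3 : ((L + 1 - k : ℕ) : ℝ) ≤ L := by
            have : L + 1 - k ≤ L := by omega
            exact_mod_cast this
          have h4 : C1 ≤ C1 * L := le_mul_of_one_le_right hC10 hLR1
          rw [hB, hC2, div_mul_eq_mul_div]
          apply div_le_div_of_nonneg_right _ hτ.le
          nlinarith
        have h3 : B / τ * A ^ T ≤ C2 * L * Z := by
          apply mul_le_mul h2 hAT (by positivity) (by positivity)
        have h4 : C2 * L * Z = n := by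
          rw [hZ]
          field_simp
        have h5 : 0 ≤ B / τ := by positivity
        linarith
      have hmost := most b k (L + 1 - k) (univ : Finset (Fin (d + 1) → Fin M))
        (fun a => x + ∑ l, ((a l : ℕ) : ℝ) * α l) A (D * L + C1) g (β * (M : ℝ) ^ d) hA1.le
        (by positivity) hg0 hgood (ε / 4) (by positivity) T n hX
      have hfin : β * (M : ℝ) ^ d / (ε / 4) ≤ C * ((M : ℝ) ^ (1 - c) * (M : ℝ) ^ d) := by
        have h1 : β * (M : ℝ) ^ d / (ε / 4) = C4 * ((M : ℝ) ^ (1 - c) * (M : ℝ) ^ d) := by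
          rw [hβ, hC4]
          ring
        rw [h1]
        apply mul_le_mul_of_nonneg_right _ (by positivity)
        have h2 : 0 < A * C2 * C3 := by positivity
        have h3 : 0 < (b : ℝ) ^ ((L0 : ℝ) * c) := by positivity
        rw [hC]
        linarith
      refine le_trans (Nat.cast_le.2 (Finset.card_le_card ?_)) (hmost.trans hfin)
      intro m hm
      rw [Finset.mem_filter] at hm ⊢
      obtain ⟨hm, w, hw⟩ := hm
      refine ⟨hm, w, lt_of_lt_of_le hw ?_⟩
      -- compare
      have h1 : Real.log ((n : ℝ) / (C * Real.log M)) / Real.log A ≤ T := by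
        have h2 : Real.log ((n : ℝ) / (C * Real.log M)) / Real.log A + 1 ≤
            Real.log Z / Real.log A := by
          have e1 : Real.log ((n : ℝ) / (C * Real.log M)) / Real.log A + 1 =
              (Real.log ((n : ℝ) / (C * Real.log M)) + Real.log A) / Real.log A := by
            field_simp
          rw [e1]
          exact div_le_div_of_nonneg_right hlog hlA.le
        linarith
      have h2 : (1 - ε) ≤ (1 - ε / 4) * (1 - ε / 2) := by nlinarith
      have h3 : Real.log M / ((b : ℝ) ^ k * Real.log b) ≤ L / (b : ℝ) ^ k := by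
        have e1 : Real.log M / ((b : ℝ) ^ k * Real.log b) =
            Real.log M / Real.log b / (b : ℝ) ^ k := by
          field_simp
        rw [e1]
        exact div_le_div_of_nonneg_right hLge hbk0.le
      have hT0 : (0 : ℝ) ≤ T := Nat.cast_nonneg _
      have h4 : 0 ≤ Real.log M / ((b : ℝ) ^ k * Real.log b) := by positivity
      calc (1 - ε) * (Real.log M / ((b : ℝ) ^ k * Real.log b)) *
          (Real.log (n / (C * Real.log M)) / Real.log A)
          ≤ (1 - ε) * (Real.log M / ((b : ℝ) ^ k * Real.log b)) * T := by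
            apply mul_le_mul_of_nonneg_left h1
            apply mul_nonneg (by linarith) h4
        _ ≤ ((1 - ε / 4) * (1 - ε / 2)) * (L / (b : ℝ) ^ k) * T := by
            apply mul_le_mul_of_nonneg_right _ hT0
            apply mul_le_mul h2 h3 h4
            apply mul_nonneg <;> linarith
        _ = (1 - ε / 4) * T * g := by
            rw [hg]
            ring

end Pool.Agent.Y934
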