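import Mathlib
import Pool.Agent.Y934.PairE
import Pool.Agent.TH768.DG.Exp

/-!
Simultaneous approximation of two of the numbers `t + r e`, `t e ^ k`.
-/

set_option autoImplicit false

open Finset Filter Topology

namespace Pool.Agent.Y934

open Pool.Agent.TH768.DG (meas_exp)

/-- linear forms in `1` and `e ^ k` -/
lemma lin2 {κ : ℝ} (hκ : 2 < κ) (k : ℤ) (hk : k ≠ 0) :
    ∃ c : ℝ, 0 < c ∧ ∀ (a b : ℤ), (a ≠ 0 ∨ b ≠ 0) → ∀ H : ℝ, 1 ≤ H → |(a : ℝ)| ≤ H →
      |(b : ℝ)| ≤ H → c ≤ H ^ κ * |a * Real.exp k + b| := by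
  obtain ⟨c, hc, h⟩ := meas_exp (n := 1) ![0, k] (by
    intro i j hij
    fin_cases i <;> fin_cases j <;> simp_all) (κ - 1) (by linarith)
  refine ⟨c, hc, fun a b hab H hH ha hb => ?_⟩
  have h1 := h ![b, a] (by
    intro h0
    have h2 := congrFun h0 0
    have h3 := congrFun h0 1
    simp at h2 h3
    rcases hab with h4 | h4
    · exact h4 h3
    · exact h4 h2) H hH (by
    intro j
    fin_cases j
    · simpa using hb
    · simpa using ha)
  have e1 : ((1 : ℕ) : ℝ) + (κ - 1) = κ := by push_cast; ring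
  rw [e1] at h1
  have e2 : ∑ j : Fin 2, ((![b, a] : Fin 2 → ℤ) j : ℝ) * Real.exp ((![0, k] : Fin 2 → ℤ) j) =
      a * Real.exp k + b := by
    rw [Fin.sum_univ_two]
    simp
    ring
  rw [e2] at h1
  exact h1

/-- linear forms in `1`, `e ^ k`, `e ^ (k + 1)` -/
lemma lin3 {κ : ℝ} (hκ : 2 < κ) (k : ℤ) (hk : k ≠ 0) (hk1 : k ≠ -1) :
    ∃ c : ℝ, 0 < c ∧ ∀ (a b d : ℤ), (a ≠ 0 ∨ b ≠ 0 ∨ d ≠ 0) → ∀ H : ℝ, 1 ≤ H → |(a : ℝ)| ≤ H →
      |(b : ℝ)| ≤ H → |(d : ℝ)| ≤ H →
      c ≤ H ^ κ * |a * Real.exp (k + 1 : ℤ) + b * Real.exp k + d| := by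
  obtain ⟨c, hc, h⟩ := meas_exp (n := 2) ![0, k, k + 1] (by
    intro i j hij
    fin_cases i <;> fin_cases j <;> first | rfl | (exfalso; revert hij; simp <;> omega))
    (κ - 2) (by linarith)
  refine ⟨c, hc, fun a b d hab H hH ha hb hd => ?_⟩
  have h1 := h ![d, b, a] (by
    intro h0
    have h2 := congrFun h0 0
    have h3 := congrFun h0 1
    have h4 := congrFun h0 2
    simp at h2 h3 h4
    rcases hab with h5 | h5 | h5
    · exact h5 h4
    · exact h5 h3
    · exact h5 h2) H hH (by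
    intro j
    fin_cases j
    · simpa using hd
    · simpa using hb
    · simpa using ha)
  have e1 : ((2 : ℕ) : ℝ) + (κ - 2) = κ := by push_cast; ring
  rw [e1] at h1
  have e2 : ∑ j : Fin 3, ((![d, b, a] : Fin 3 → ℤ) j : ℝ) *
      Real.exp ((![0, k, k + 1] : Fin 3 → ℤ) j) =
      a * Real.exp (k + 1 : ℤ) + b * Real.exp k + d := by
    rw [Fin.sum_univ_three]
    simp
    ring
  rw [e2] at h1
  exact h1

lemma pair_gen (x x' w A A2 c1 c2 : ℝ) (hw : 0 ≤ w) (hA : 0 < A) (hA2 : 0 < A2) (hc1 : 0 < c1)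
    (hc2 : 0 < c2)
    (h : ∀ (q : ℕ), 1 ≤ q → ∀ p p' : ℤ, |q * x - p| ≤ 1 → |q * x' - p'| ≤ 1 →
      (c2 ≤ |q * x - p| ∨ c2 ≤ |q * x' - p'|) ∨
        c1 ≤ (A2 * q) ^ w * (A * (|q * x - p| + |q * x' - p'|))) :
    ∃ c : ℝ, 0 < c ∧ ∀ (q : ℕ), 1 ≤ q → ∀ p p' : ℤ,
      c ≤ (q : ℝ) ^ w * |q * x - p| ∨ c ≤ (q : ℝ) ^ w * |q * x' - p'| := by
  have hU : 0 < A2 ^ w := Real.rpow_pos_of_pos hA2 _
  refine ⟨min (min 1 c2) (c1 / (2 * A * A2 ^ w)), by positivity, fun q hq p p' => ?_⟩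
  by_contra hcon
  push Not at hcon
  obtain ⟨ha, hb⟩ := hcon
  have hqR : (1 : ℝ) ≤ q := by exact_mod_cast hq
  have hq0 : (0 : ℝ) < q := by linarith
  have hqw : 1 ≤ (q : ℝ) ^ w := Real.one_le_rpow hqR hw
  have ha' : |q * x - p| < min (min 1 c2) (c1 / (2 * A * A2 ^ w)) :=
    lt_of_le_of_lt (le_mul_of_one_le_left (abs_nonneg _) hqw) ha
  have hb' : |q * x' - p'| < min (min 1 c2) (c1 / (2 * A * A2 ^ w)) :=
    lt_of_le_of_lt (le_mul_of_one_le_left (abs_nonneg _) hqw) hb
  have m1 : min (min 1 c2) (c1 / (2 * A * A2 ^ w)) ≤ 1 := (min_le_left _ _).trans (min_le_left _ _)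
  have m2 : min (min 1 c2) (c1 / (2 * A * A2 ^ w)) ≤ c2 := (min_le_left _ _).trans (min_le_right _ _)
  have m3 : min (min 1 c2) (c1 / (2 * A * A2 ^ w)) ≤ c1 / (2 * A * A2 ^ w) := min_le_right _ _
  rcases h q hq p p' (by linarith) (by linarith) with (h1 | h1) | h1
  · linarith
  · linarith
  · rw [Real.mul_rpow hA2.le hq0.le] at h1
    have h2 : c1 ≤ A2 ^ w * A * ((q : ℝ) ^ w * |q * x - p| + (q : ℝ) ^ w * |q * x' - p'|) := by
      calc c1 ≤ A2 ^ w * (q : ℝ) ^ w * (A * (|q * x - p| + |q * x' - p'|)) := h1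
        _ = _ := by ring
    have h3 : A2 ^ w * A * ((q : ℝ) ^ w * |q * x - p| + (q : ℝ) ^ w * |q * x' - p'|) <
        A2 ^ w * A * (c1 / (2 * A * A2 ^ w) + c1 / (2 * A * A2 ^ w)) :=
      mul_lt_mul_of_pos_left (add_lt_add (lt_of_lt_of_le ha m3) (lt_of_lt_of_le hb m3))
        (by positivity)
    have e1 : A2 ^ w * A * (c1 / (2 * A * A2 ^ w) + c1 / (2 * A * A2 ^ w)) = c1 := by
      field_simp
      ring
    linarith

/-- two of the numbers `t e ^ j` -/
lemma pair_prod {κ : ℝ} (hκ : 2 < κ) (t : ℝ) (ht : t ≠ 0) (j k : ℤ) (hjk : j ≠ k) :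
    ∃ c : ℝ, 0 < c ∧ ∀ (q : ℕ), 1 ≤ q → ∀ p p' : ℤ,
      c ≤ (q : ℝ) ^ κ * |q * (t * Real.exp j) - p| ∨
      c ≤ (q : ℝ) ^ κ * |q * (t * Real.exp k) - p'| := by
  obtain ⟨c1, hc1, h1⟩ := lin2 hκ (k - j) (sub_ne_zero.2 (Ne.symm hjk))
  have htp : 0 < |t| := abs_pos.2 ht
  refine pair_gen _ _ κ (Real.exp (k - j : ℤ) + 1) (|t * Real.exp j| + |t * Real.exp k| + 1) c1
    (|t * Real.exp j|) (by linarith) (by positivity) (by positivity) hc1 (by
      rw [abs_pos]; exact mul_ne_zero ht (Real.exp_pos _).ne') (fun q hq p p' ha hb => ?_)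
  have hqR : (1 : ℝ) ≤ q := by exact_mod_cast hq
  have hq0 : (0 : ℝ) < q := by linarith
  by_cases hpp : p ≠ 0 ∨ p' ≠ 0
  · right
    set H : ℝ := (|t * Real.exp j| + |t * Real.exp k| + 1) * q with hH
    have n1 := abs_nonneg (t * Real.exp j)
    have n2 := abs_nonneg (t * Real.exp k)
    have hp : |(p : ℝ)| ≤ H := by
      have h2 : |(p : ℝ)| ≤ |q * (t * Real.exp j)| + |q * (t * Real.exp j) - p| := by
        have : (p : ℝ) = q * (t * Real.exp j) - (q * (t * Real.exp j) - p) := by ring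
        nth_rw 1 [this]
        exact abs_sub _ _
      rw [abs_mul, abs_of_pos hq0] at h2
      rw [hH]
      nlinarith
    have hp' : |((-p' : ℤ) : ℝ)| ≤ H := by
      push_cast
      rw [abs_neg]
      have h2 : |(p' : ℝ)| ≤ |q * (t * Real.exp k)| + |q * (t * Real.exp k) - p'| := by
        have : (p' : ℝ) = q * (t * Real.exp k) - (q * (t * Real.exp k) - p') := by ring
        nth_rw 1 [this]
        exact abs_sub _ _
      rw [abs_mul, abs_of_pos hq0] at h2
      rw [hH]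
      nlinarith
    have h3 := h1 p (-p') (by
      rcases hpp with h | h
      · exact Or.inl h
      · exact Or.inr (neg_ne_zero.2 h)) H (by rw [hH]; nlinarith) hp hp'
    refine h3.trans (mul_le_mul_of_nonneg_left ?_ (by positivity))
    have e1 : (p : ℝ) * Real.exp (k - j : ℤ) + ((-p' : ℤ) : ℝ) =
        -(Real.exp (k - j : ℤ) * (q * (t * Real.exp j) - p)) + (q * (t * Real.exp k) - p') := by
      have h4 : Real.exp (k - j : ℤ) * Real.exp j = Real.exp k := by
        rw [← Real.exp_add]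
        congr 1
        push_cast
        ring
      push_cast at h4 ⊢
      linear_combination ((q : ℝ) * t) * h4
    rw [e1]
    refine (abs_add_le _ _).trans ?_
    rw [abs_neg, abs_mul, abs_of_pos (Real.exp_pos _)]
    have := abs_nonneg (q * (t * Real.exp j) - p)
    have := abs_nonneg (q * (t * Real.exp k) - p')
    have := Real.exp_pos ((k - j : ℤ) : ℝ)
    nlinarith
  · left; left
    push Not at hpp
    rw [hpp.1, Int.cast_zero, sub_zero, abs_mul (q : ℝ), abs_of_pos hq0]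
    exact le_mul_of_one_le_left (abs_nonneg _) hqR

/-- `t + r e` and `t e ^ k` -/
lemma pair_mix {κ : ℝ} (hκ : 2 < κ) (t : ℝ) (ht : t ≠ 0) (r : ℚ) (hr : t + r * Real.exp 1 ≠ 0)
    (k : ℤ) (hk : k ≠ 0) :
    ∃ c : ℝ, 0 < c ∧ ∀ (q : ℕ), 1 ≤ q → ∀ p p' : ℤ,
      c ≤ (q : ℝ) ^ κ * |q * (t + r * Real.exp 1) - p| ∨
      c ≤ (q : ℝ) ^ κ * |q * (t * Real.exp k) - p'| := by
  have hv : (0 : ℝ) < r.den := by exact_mod_cast r.den_pos
  have hv0 : (r.den : ℤ) ≠ 0 := by exact_mod_cast r.den_pos.ne'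
  have hrr : (r : ℝ) * r.den = r.num := by
    have := Rat.mul_den_eq_num r
    exact_mod_cast this
  set A2 : ℝ := |(r.num : ℝ)| + r.den * (|t + r * Real.exp 1| + |t * Real.exp k| + 1) + 1 with hA2
  have n0 := abs_nonneg (r.num : ℝ)
  have n1 := abs_nonneg (t + r * Real.exp 1)
  have n2 := abs_nonneg (t * Real.exp k)
  have hd1 := mul_nonneg hv.le n1
  have hd2 := mul_nonneg hv.le n2
  have hA20 : 1 ≤ A2 := by rw [hA2]; nlinarith
  have g1 : (r.den : ℝ) * (|t + r * Real.exp 1| + 1) ≤ A2 := by rw [hA2]; nlinarith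
  have g2 : (r.den : ℝ) * (|t * Real.exp k| + 1) ≤ A2 := by rw [hA2]; nlinarith
  have g3 : |(r.num : ℝ)| + (r.den : ℝ) * (|t * Real.exp k| + 1) ≤ A2 := by rw [hA2]; nlinarith
  have g4 : |(r.num : ℝ)| ≤ A2 := by rw [hA2]; nlinarith
  have bnd : ∀ (q : ℕ), 1 ≤ q → ∀ p p' : ℤ, |q * (t + r * Real.exp 1) - p| ≤ 1 →
      |q * (t * Real.exp k) - p'| ≤ 1 →
      |(r.den : ℝ) * p| ≤ r.den * (|t + r * Real.exp 1| + 1) * q ∧
      |(r.den : ℝ) * p'| ≤ r.den * (|t * Real.exp k| + 1) * q := by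
    intro q hq p p' ha hb
    have hqR : (1 : ℝ) ≤ q := by exact_mod_cast hq
    have hq0 : (0 : ℝ) < q := by linarith
    have h2 : |(p : ℝ)| ≤ |q * (t + r * Real.exp 1)| + |q * (t + r * Real.exp 1) - p| := by
      have : (p : ℝ) = q * (t + r * Real.exp 1) - (q * (t + r * Real.exp 1) - p) := by ring
      nth_rw 1 [this]
      exact abs_sub _ _
    have h3 : |(p' : ℝ)| ≤ |q * (t * Real.exp k)| + |q * (t * Real.exp k) - p'| := by
      have : (p' : ℝ) = q * (t * Real.exp k) - (q * (t * Real.exp k) - p') := by ring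
      nth_rw 1 [this]
      exact abs_sub _ _
    rw [abs_mul, abs_of_pos hq0] at h2 h3
    rw [abs_mul, abs_mul, abs_of_pos hv, mul_assoc, mul_assoc]
    refine ⟨mul_le_mul_of_nonneg_left (by nlinarith) hv.le,
      mul_le_mul_of_nonneg_left (by nlinarith) hv.le⟩
  by_cases hk1 : k = -1
  · -- `k = -1`
    obtain ⟨c1, hc1, h1⟩ := lin2 hκ (-1) (by norm_num)
    refine pair_gen _ _ κ (r.den * (Real.exp k + 1)) A2 c1 (|t + r * Real.exp 1|) (by linarith)
      (by positivity) (by linarith) hc1 (abs_pos.2 hr) (fun q hq p p' ha hb => ?_)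
    have hqR : (1 : ℝ) ≤ q := by exact_mod_cast hq
    have hq0 : (0 : ℝ) < q := by linarith
    obtain ⟨b1, b2⟩ := bnd q hq p p' ha hb
    by_cases hpp : p ≠ 0
    · right
      have h3 := h1 (-(r.den * p)) (q * r.num + r.den * p')
        (Or.inl (neg_ne_zero.2 (mul_ne_zero hv0 hpp))) (A2 * q) (by nlinarith) (by
          push_cast
          rw [abs_neg]
          exact b1.trans (mul_le_mul_of_nonneg_right g1 hq0.le)) (by
          push_cast
          refine (abs_add_le _ _).trans ?_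
          rw [abs_mul (q : ℝ), abs_of_pos hq0]
          have := mul_le_mul_of_nonneg_right g3 hq0.le
          linarith)
      refine h3.trans (mul_le_mul_of_nonneg_left ?_ (by positivity))
      have e1 : ((-(r.den * p) : ℤ) : ℝ) * Real.exp (-1 : ℤ) + ((q * r.num + r.den * p' : ℤ) : ℝ) =
          r.den * (Real.exp k * (q * (t + r * Real.exp 1) - p)) +
            -(r.den * (q * (t * Real.exp k) - p')) := by
        have h4 : Real.exp k * Real.exp 1 = 1 := by
          rw [hk1, ← Real.exp_add]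
          push_cast
          simp
        rw [hk1] at h4 ⊢
        push_cast at h4 ⊢
        linear_combination (-(q : ℝ) * r * r.den) * h4 - (q : ℝ) * hrr
      rw [e1]
      refine (abs_add_le _ _).trans ?_
      rw [abs_neg, abs_mul, abs_mul (Real.exp k), abs_mul (r.den : ℝ) (q * (t * Real.exp k) - p'),
        abs_of_pos hv, abs_of_pos (Real.exp_pos _)]
      have m1 := abs_nonneg (q * (t + r * Real.exp 1) - p)
      have m2 := abs_nonneg (q * (t * Real.exp k) - p')
      have m3 := Real.exp_pos (k : ℝ)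
      have m4 : 0 ≤ (r.den : ℝ) * (Real.exp k * |q * (t * Real.exp k) - p'|) := by positivity
      have m5 : 0 ≤ (r.den : ℝ) * |q * (t + r * Real.exp 1) - p| := by positivity
      nlinarith
    · left; left
      push Not at hpp
      rw [hpp, Int.cast_zero, sub_zero, abs_mul (q : ℝ), abs_of_pos hq0]
      exact le_mul_of_one_le_left (abs_nonneg _) hqR
  · obtain ⟨c1, hc1, h1⟩ := lin3 hκ k hk hk1
    refine pair_gen _ _ κ (r.den * (Real.exp k + 1)) A2 c1 (|t * Real.exp k|) (by linarith)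
      (by positivity) (by linarith) hc1 (abs_pos.2 (mul_ne_zero ht (Real.exp_pos _).ne'))
      (fun q hq p p' ha hb => ?_)
    have hqR : (1 : ℝ) ≤ q := by exact_mod_cast hq
    have hq0 : (0 : ℝ) < q := by linarith
    obtain ⟨b1, b2⟩ := bnd q hq p p' ha hb
    by_cases hpp : p' ≠ 0
    · right
      have h3 := h1 (q * r.num) (-(r.den * p)) (r.den * p')
        (Or.inr (Or.inr (mul_ne_zero hv0 hpp))) (A2 * q) (by nlinarith) (by
          push_cast
          rw [abs_mul, abs_of_pos hq0]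
          have := mul_le_mul_of_nonneg_right g4 hq0.le
          linarith) (by
          push_cast
          rw [abs_neg]
          exact b1.trans (mul_le_mul_of_nonneg_right g1 hq0.le)) (by
          push_cast
          exact b2.trans (mul_le_mul_of_nonneg_right g2 hq0.le))
      refine h3.trans (mul_le_mul_of_nonneg_left ?_ (by positivity))
      have e1 : ((q * r.num : ℤ) : ℝ) * Real.exp (k + 1 : ℤ) + ((-(r.den * p) : ℤ) : ℝ) *
          Real.exp k + ((r.den * p' : ℤ) : ℝ) =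
          r.den * (Real.exp k * (q * (t + r * Real.exp 1) - p)) +
            -(r.den * (q * (t * Real.exp k) - p')) := by
        have h4 : Real.exp (k + 1 : ℤ) = Real.exp k * Real.exp 1 := by
          rw [← Real.exp_add]
          push_cast
          rfl
        rw [h4]
        push_cast
        linear_combination (-(q : ℝ) * Real.exp k * Real.exp 1) * hrr
      rw [e1]
      refine (abs_add_le _ _).trans ?_
      rw [abs_neg, abs_mul, abs_mul (Real.exp k), abs_mul (r.den : ℝ) (q * (t * Real.exp k) - p'),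
        abs_of_pos hv, abs_of_pos (Real.exp_pos _)]
      have m1 := abs_nonneg (q * (t + r * Real.exp 1) - p)
      have m2 := abs_nonneg (q * (t * Real.exp k) - p')
      have m3 := Real.exp_pos (k : ℝ)
      have m4 : 0 ≤ (r.den : ℝ) * (Real.exp k * |q * (t * Real.exp k) - p'|) := by positivity
      have m5 : 0 ≤ (r.den : ℝ) * |q * (t + r * Real.exp 1) - p| := by positivity
      nlinarith
    · left; right
      push Not at hpp
      rw [hpp, Int.cast_zero, sub_zero, abs_mul (q : ℝ), abs_of_pos hq0]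
      exact le_mul_of_one_le_left (abs_nonneg _) hqR

end Pool.Agent.Y934
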